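import Mathlib

/-!
# NGE / Sm: power sums of small numbers

PROOF IN WORDS. For one `α` with `‖α‖ < ρ`: `(‖α‖/ρ)^e → 0` (`tendsto_pow_atTop_nhds_zero_of_lt_one`); induction on the multiset (or `ρ' < ρ` the largest absolute value, `card * ρ'^e`); finitely many `i`: the maximum of the bounds.
-/

set_option autoImplicit false

namespace Pool.Agent.Lib.NGE

open Filter in
private theorem small_one (M : Multiset ℂ) (ρ : ℝ) (hρ : 0 < ρ) (hM : ∀ α ∈ M, ‖α‖ < ρ) :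
    ∀ δ : ℝ, 0 < δ → ∃ E : ℕ, ∀ e : ℕ, E ≤ e → ‖(M.map fun α => α ^ e).sum‖ ≤ δ * ρ ^ e := by
  induction M using Multiset.induction_on with
  | empty =>
    intro δ hδ
    exact ⟨0, fun e _ => by
      simp only [Multiset.map_zero, Multiset.sum_zero, norm_zero]
      positivity⟩
  | cons a M ih =>
    intro δ hδ
    obtain ⟨E1, h1⟩ := ih (fun α h => hM α (Multiset.mem_cons_of_mem h)) (δ / 2) (half_pos hδ)
    have ha : ‖a‖ < ρ := hM a (Multiset.mem_cons_self a M)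
    have ht : Tendsto (fun e : ℕ => (‖a‖ / ρ) ^ e) atTop (nhds 0) :=
      tendsto_pow_atTop_nhds_zero_of_lt_one (by positivity) ((div_lt_one hρ).2 ha)
    obtain ⟨E2, h2⟩ := eventually_atTop.1 (ht.eventually_lt_const (half_pos hδ))
    refine ⟨max E1 E2, fun e he => ?_⟩
    rw [Multiset.map_cons, Multiset.sum_cons]
    have h3 := h1 e (le_trans (le_max_left _ _) he)
    have h4 := h2 e (le_trans (le_max_right _ _) he)
    rw [div_pow, div_lt_iff₀ (pow_pos hρ e)] at h4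
    calc ‖a ^ e + (M.map fun α => α ^ e).sum‖ ≤ ‖a ^ e‖ + ‖(M.map fun α => α ^ e).sum‖ := norm_add_le _ _
      _ ≤ δ / 2 * ρ ^ e + δ / 2 * ρ ^ e := by
        rw [norm_pow]
        exact add_le_add h4.le h3
      _ = δ * ρ ^ e := by ring

theorem small {ι : Type} [Finite ι] (A : ι → Multiset ℂ) (ρ : ℝ) (hρ : 0 < ρ) (hA : ∀ i, ∀ α ∈ A i, ‖α‖ < ρ) (δ : ℝ)
    (hδ : 0 < δ) : ∃ E : ℕ, ∀ e : ℕ, E ≤ e → ∀ i, ‖((A i).map fun α => α ^ e).sum‖ ≤ δ * ρ ^ e := by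
  cases nonempty_fintype ι
  have h : ∀ i, ∃ E : ℕ, ∀ e : ℕ, E ≤ e → ‖((A i).map fun α => α ^ e).sum‖ ≤ δ * ρ ^ e :=
    fun i => small_one (A i) ρ hρ (hA i) δ hδ
  choose E hE using h
  refine ⟨Finset.univ.sup E, fun e he i => hE i e (le_trans (Finset.le_sup (Finset.mem_univ i)) he)⟩

end Pool.Agent.Lib.NGE
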