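import Pool.Agent.Lib.NGE.Tor
import Pool.Agent.Lib.NGE.Sm

/-!
# NGE / App: simultaneous approximation of power sums

PROOF IN WORDS. `A i = (filter ‖α‖ = ρ) + (filter ‖α‖ ≠ ρ)`; the second part has `‖α‖ < ρ`, its power sums are `≤ (ε/2) ρ^e` for `e ≥ E1` (`small`). First part: `k` elements; let `κ` be the finite type of all `α` occurring in some `A i` with `‖α‖ = ρ`, `z α = α/ρ`; `torus` with `δ (max k + 1) ≤ ε/2` and `max E E1`:
`‖∑ α^e - k ρ^e‖ ≤ ∑ ρ^e ‖z^e - 1‖ ≤ k δ ρ^e`.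
-/

set_option autoImplicit false

namespace Pool.Agent.Lib.NGE

private theorem aux (M : Multiset ℂ) (e : ℕ) (r : ℂ) (b : ℝ) (h : ∀ α ∈ M, ‖α ^ e - r‖ ≤ b) :
    ‖(M.map fun α => α ^ e).sum - ((M.card : ℕ) : ℂ) * r‖ ≤ (M.card : ℝ) * b := by
  induction M using Multiset.induction_on with
  | empty => simp
  | cons a M ih =>
    have h1 := ih fun α hα => h α (Multiset.mem_cons_of_mem hα)
    have h2 := h a (Multiset.mem_cons_self a M)
    have e1 : ((a ::ₘ M).map fun α => α ^ e).sum - (((a ::ₘ M).card : ℕ) : ℂ) * r =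
        (a ^ e - r) + ((M.map fun α => α ^ e).sum - ((M.card : ℕ) : ℂ) * r) := by
      rw [Multiset.map_cons, Multiset.sum_cons, Multiset.card_cons]
      push_cast
      ring
    rw [e1, Multiset.card_cons]
    refine (norm_add_le _ _).trans ?_
    push_cast
    linarith

open Classical in
theorem approx {ι : Type} [Finite ι] (A : ι → Multiset ℂ) (ρ : ℝ) (hρ : 0 < ρ) (hA : ∀ i, ∀ α ∈ A i, ‖α‖ ≤ ρ) (ε : ℝ)
    (hε : 0 < ε) (E : ℕ) :
    ∃ e : ℕ, E ≤ e ∧ 1 ≤ e ∧ ∀ i, ‖((A i).map fun α => α ^ e).sum -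
      ((((A i).filter fun α => ‖α‖ = ρ).card : ℕ) : ℂ) * (ρ : ℂ) ^ e‖ ≤ ε * ρ ^ e := by
  cases nonempty_fintype ι
  obtain ⟨S, hS⟩ : ∃ S : Finset ℂ, S = Finset.univ.biUnion fun i => ((A i).filter fun α => ‖α‖ = ρ).toFinset := ⟨_, rfl⟩
  obtain ⟨K, hK⟩ : ∃ K : ℕ, K = ∑ i, (A i).card := ⟨_, rfl⟩
  have hS1 : ∀ α ∈ S, ‖α‖ = ρ := by
    intro α hα
    rw [hS, Finset.mem_biUnion] at hα
    obtain ⟨i, -, h⟩ := hα
    exact (Multiset.mem_filter.1 (Multiset.mem_toFinset.1 h)).2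
  have hS2 : ∀ i, ∀ α ∈ (A i).filter (fun α => ‖α‖ = ρ), α ∈ S := by
    intro i α hα
    rw [hS, Finset.mem_biUnion]
    exact ⟨i, Finset.mem_univ _, Multiset.mem_toFinset.2 hα⟩
  have hK0 : (0 : ℝ) < K + 1 := by positivity
  have hδ : 0 < ε / 2 / (K + 1) := by positivity
  obtain ⟨E1, hE1⟩ := small (fun i => (A i).filter fun α => ¬ ‖α‖ = ρ) ρ hρ (fun i α hα => by
    obtain ⟨h1, h2⟩ := Multiset.mem_filter.1 hα
    exact lt_of_le_of_ne (hA i α h1) h2) (ε / 2) (by positivity)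
  obtain ⟨e, he, he1, hz⟩ := torus (fun α : {α // α ∈ S} => (α : ℂ) / (ρ : ℂ)) (fun α => by
    show ‖(α : ℂ) / (ρ : ℂ)‖ = 1
    rw [norm_div, hS1 _ α.2, Complex.norm_real, Real.norm_eq_abs, abs_of_pos hρ, div_self hρ.ne'])
    (ε / 2 / (K + 1)) hδ (max E E1)
  refine ⟨e, (le_max_left _ _).trans he, he1, fun i => ?_⟩
  have hpos : 0 < ρ ^ e := pow_pos hρ e
  have hρc : (ρ : ℂ) ≠ 0 := by exact_mod_cast hρ.ne'
  have h1 : ∀ α ∈ (A i).filter (fun α => ‖α‖ = ρ), ‖α ^ e - (ρ : ℂ) ^ e‖ ≤ ε / 2 / (K + 1) * ρ ^ e := by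
    intro α hα
    have h2 : ‖(α / (ρ : ℂ)) ^ e - 1‖ ≤ ε / 2 / (K + 1) := hz ⟨α, hS2 i α hα⟩
    have e1 : α ^ e - (ρ : ℂ) ^ e = ((α / (ρ : ℂ)) ^ e - 1) * (ρ : ℂ) ^ e := by
      rw [sub_mul, div_pow, div_mul_cancel₀ _ (pow_ne_zero e hρc), one_mul]
    rw [e1, norm_mul, norm_pow, Complex.norm_real, Real.norm_eq_abs, abs_of_pos hρ]
    exact mul_le_mul_of_nonneg_right h2 hpos.le
  have h3 := aux _ e ((ρ : ℂ) ^ e) _ h1
  have h4 := hE1 e ((le_max_right _ _).trans he) i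
  have h5 : ((A i).map fun α => α ^ e).sum = (((A i).filter fun α => ‖α‖ = ρ).map fun α => α ^ e).sum +
      (((A i).filter fun α => ¬ ‖α‖ = ρ).map fun α => α ^ e).sum := by
    rw [← Multiset.sum_add, ← Multiset.map_add, Multiset.filter_add_not]
  have h6 : ((A i).map fun α => α ^ e).sum - ((((A i).filter fun α => ‖α‖ = ρ).card : ℕ) : ℂ) * (ρ : ℂ) ^ e =
      ((((A i).filter fun α => ‖α‖ = ρ).map fun α => α ^ e).sum -
        ((((A i).filter fun α => ‖α‖ = ρ).card : ℕ) : ℂ) * (ρ : ℂ) ^ e) +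
      (((A i).filter fun α => ¬ ‖α‖ = ρ).map fun α => α ^ e).sum := by
    rw [h5]; ring
  have h7 : (((A i).filter fun α => ‖α‖ = ρ).card : ℝ) ≤ K + 1 := by
    have h8 : ((A i).filter fun α => ‖α‖ = ρ).card ≤ (A i).card := Multiset.card_le_card (Multiset.filter_le _ _)
    have h9 : (A i).card ≤ K := by
      rw [hK]
      exact Finset.single_le_sum (f := fun i => (A i).card) (fun j _ => Nat.zero_le _) (Finset.mem_univ i)
    have h10 : ((((A i).filter fun α => ‖α‖ = ρ).card : ℕ) : ℝ) ≤ (K : ℝ) := by exact_mod_cast h8.trans h9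
    linarith
  have h11 : (((A i).filter fun α => ‖α‖ = ρ).card : ℝ) * (ε / 2 / (K + 1) * ρ ^ e) ≤ ε / 2 * ρ ^ e := by
    have h12 := mul_le_mul_of_nonneg_right h7 (by positivity : 0 ≤ ε / 2 / (K + 1) * ρ ^ e)
    refine h12.trans (le_of_eq ?_)
    field_simp
  rw [h6]
  refine (norm_add_le _ _).trans ?_
  have h13 : ‖(((A i).filter fun α => ¬ ‖α‖ = ρ).map fun α => α ^ e).sum‖ ≤ ε / 2 * ρ ^ e := h4
  linarith

end Pool.Agent.Lib.NGE
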