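import Pool.Agent.Lib.NGE.App

/-!
# NGE / Bd2: bounded power sums

PROOF IN WORDS. Suppose the largest absolute value `ρ` in `A` is `> 2`, `k ≥ 1` elements have it. `approx` with `ε = 1/2`: for arbitrarily large `e`: `‖∑ α^e‖ ≥ (k - 1/2) ρ^e ≥ ρ^e/2 > 2^e` as soon as `(ρ/2)^e > 2`. Contradiction.
-/

set_option autoImplicit false

namespace Pool.Agent.Lib.NGE

theorem abs_le_two (A : Multiset ℂ) (h : ∀ e : ℕ, 1 ≤ e → ‖(A.map fun α => α ^ e).sum‖ ≤ 2 ^ e) :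
    ∀ α ∈ A, ‖α‖ ≤ 2 := by
  classical
  by_contra hcon
  push Not at hcon
  obtain ⟨α₀, hα₀, h2⟩ := hcon
  -- an element of largest absolute value
  have hne : A.toFinset.Nonempty := ⟨α₀, Multiset.mem_toFinset.mpr hα₀⟩
  obtain ⟨β, hβ, hmax⟩ := Finset.exists_max_image A.toFinset (fun α => ‖α‖) hne
  have hβA : β ∈ A := Multiset.mem_toFinset.mp hβ
  have hρ2 : 2 < ‖β‖ := lt_of_lt_of_le h2 (hmax α₀ (Multiset.mem_toFinset.mpr hα₀))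
  have hρ0 : 0 < ‖β‖ := by linarith
  have hA : ∀ i : Unit, ∀ α ∈ (fun _ : Unit => A) i, ‖α‖ ≤ ‖β‖ := fun _ α hα =>
    hmax α (Multiset.mem_toFinset.mpr hα)
  -- E with (‖β‖/2)^e > 2 for e ≥ E
  obtain ⟨E, hE⟩ := pow_unbounded_of_one_lt (2 : ℝ) (show (1 : ℝ) < ‖β‖ / 2 by linarith)
  obtain ⟨e, heE, he1, happ⟩ := approx (fun _ : Unit => A) ‖β‖ hρ0 hA (1 / 2) (by norm_num) E
  have h3 := happ ()
  set k : ℕ := (A.filter fun α => ‖α‖ = ‖β‖).card with hk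
  have hk1 : 1 ≤ k := by
    rw [hk, Nat.one_le_iff_ne_zero, Ne, Multiset.card_eq_zero]
    intro h0
    have : β ∈ A.filter fun α => ‖α‖ = ‖β‖ := Multiset.mem_filter.mpr ⟨hβA, rfl⟩
    rw [h0] at this
    exact absurd this (Multiset.notMem_zero β)
  have h4 : ‖((k : ℕ) : ℂ) * (‖β‖ : ℂ) ^ e‖ = k * ‖β‖ ^ e := by
    rw [norm_mul, norm_pow, Complex.norm_natCast, Complex.norm_real, Real.norm_of_nonneg hρ0.le]
  have h5 : ‖((k : ℕ) : ℂ) * (‖β‖ : ℂ) ^ e‖ ≤ ‖(A.map fun α => α ^ e).sum‖ +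
      ‖(A.map fun α => α ^ e).sum - ((k : ℕ) : ℂ) * (‖β‖ : ℂ) ^ e‖ := by
    have := norm_sub_le ((A.map fun α => α ^ e).sum)
      ((A.map fun α => α ^ e).sum - ((k : ℕ) : ℂ) * (‖β‖ : ℂ) ^ e)
    rwa [sub_sub_cancel] at this
  have h6 := h e he1
  have hp : 0 < ‖β‖ ^ e := by positivity
  have h7 : (1 : ℝ) ≤ k := by exact_mod_cast hk1
  have h8 : ‖β‖ ^ e ≤ 2 ^ e + 1 / 2 * ‖β‖ ^ e := by
    have : ‖β‖ ^ e ≤ k * ‖β‖ ^ e := by nlinarith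
    linarith
  have h9 : (2 : ℝ) < (‖β‖ / 2) ^ e :=
    lt_of_lt_of_le hE (pow_le_pow_right₀ (by linarith) heE)
  rw [div_pow] at h9
  have h10 : (0 : ℝ) < 2 ^ e := by positivity
  rw [lt_div_iff₀ h10] at h9
  linarith

end Pool.Agent.Lib.NGE
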