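import Pool.Agent.Lib.MP_f4a4e4_co.NGX.Graph

/-!
# NGE / Bic2: from points to bicliques, characteristic 2

PROOF IN WORDS. A copy of `NG5/Bic.lean` (landed) with `ν = 1`, `μ = 1`, in characteristic 2 (`-1 = 1`, so `N(y - x) = N(x - y)` in every degree): choose `t` in `K` outside `A ∪ B`; vertices `((x-t)⁻¹, N(x-t)⁻¹)`, `((y-t)⁻¹, N(y-t)⁻¹)` (`-z = z`), `(0, 1)`.
-/

set_option autoImplicit false

namespace Pool.Agent.Lib.NGE

open SimpleGraph Pool.Agent.Lib.MP_f4a4e4_co.NGX

/-- a suitable translation -/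
private theorem bic2_shift {K : Type} [Field K] [Finite K] (A B : Finset K)
    (hcard : A.card + B.card < Nat.card K) : ∃ t : K, t ∉ A ∧ t ∉ B := by
  classical
  have := Fintype.ofFinite K
  rw [Nat.card_eq_fintype_card] at hcard
  have hScard : (A ∪ B).card < Fintype.card K := lt_of_le_of_lt (Finset.card_union_le _ _) hcard
  obtain ⟨c, hc⟩ : ∃ c : K, c ∉ A ∪ B := by
    by_contra hno
    push Not at hno
    have h1 : A ∪ B = Finset.univ := Finset.eq_univ_iff_forall.2 hno
    rw [h1, Finset.card_univ] at hScard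
    exact lt_irrefl _ hScard
  exact ⟨c, fun h => hc (Finset.mem_union_left _ h), fun h => hc (Finset.mem_union_right _ h)⟩

theorem bic2 {F K : Type} [Field F] [Field K] [Finite K] [Algebra F K] (h2 : (2 : K) = 0) (A B : Finset K)
    (hAB : ∀ x ∈ A, ∀ y ∈ B, x ≠ y) (h : ∀ x ∈ A, ∀ y ∈ B, Algebra.norm F (x - y) = 1)
    (hcard : A.card + B.card < Nat.card K) :
    completeBipartiteGraph (Fin A.card) (Fin (B.card + 1)) ⊑ NormGraph F K := by
  classical
  obtain ⟨t, htA, htB⟩ := bic2_shift A B hcard
  set u : Fin A.card → K := fun i => ((A.equivFin.symm i : A) : K) with hu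
  set w : Fin B.card → K := fun j => ((B.equivFin.symm j : B) : K) with hw
  have huA : ∀ i, u i ∈ A := fun i => (A.equivFin.symm i).2
  have hwB : ∀ j, w j ∈ B := fun j => (B.equivFin.symm j).2
  have hui : Function.Injective u := fun i j h => A.equivFin.symm.injective (Subtype.ext h)
  have hwi : Function.Injective w := fun i j h => B.equivFin.symm.injective (Subtype.ext h)
  have hut : ∀ i, u i - t ≠ 0 := fun i h => htA (sub_eq_zero.1 h ▸ huA i)
  have hwt : ∀ j, w j - t ≠ 0 := fun j h => htB (sub_eq_zero.1 h ▸ hwB j)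
  set n : Kˣ →* Fˣ := Units.map (Algebra.norm F) with hn
  set α : Fin A.card → Kˣ := fun i => Units.mk0 (u i - t) (hut i) with hα
  set β : Fin B.card → Kˣ := fun j => Units.mk0 (w j - t) (hwt j) with hβ
  set f : Fin A.card ⊕ Fin (B.card + 1) → K × Fˣ := Sum.elim (fun i => ((α i : K)⁻¹, (n (α i))⁻¹))
    (Fin.cons (0, 1) fun j => ((β j : K)⁻¹, (n (β j))⁻¹)) with hf
  have hl : ∀ i, f (Sum.inl i) = ((α i : K)⁻¹, (n (α i))⁻¹) := fun i => rfl
  have hr0 : f (Sum.inr 0) = (0, 1) := rfl
  have hr : ∀ j : Fin B.card, f (Sum.inr j.succ) = ((β j : K)⁻¹, (n (β j))⁻¹) := fun j => rfl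
  have hne : ∀ i j, f (Sum.inl i) ≠ f (Sum.inr j) := by
    intro i j
    rw [hl]
    refine Fin.cases ?_ (fun j => ?_) j
    · rw [hr0]
      intro h
      exact inv_ne_zero (α i).ne_zero (Prod.ext_iff.1 h).1
    · rw [hr]
      intro h
      have h1 : (α i : K)⁻¹ = (β j : K)⁻¹ := (Prod.ext_iff.1 h).1
      have h2 : (α i : K) = (β j : K) := inv_injective h1
      rw [hα, hβ] at h2
      simp only [Units.val_mk0, sub_left_inj] at h2
      exact hAB (u i) (huA i) (w j) (hwB j) h2
  have hadj : ∀ i j, (NormGraph F K).Adj (f (Sum.inl i)) (f (Sum.inr j)) := by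
    intro i j
    refine ⟨hne i j, ?_⟩
    have hni : Algebra.norm F (α i : K) = (n (α i) : Fˣ) := rfl
    refine Fin.cases ?_ (fun j => ?_) j
    · rw [hl, hr0]
      simp only [add_zero, Units.val_one, mul_one, Units.val_inv_eq_inv_val]
      have h1 : Algebra.norm F ((α i : K)⁻¹) * Algebra.norm F (α i : K) = 1 := by
        rw [← map_mul, inv_mul_cancel₀ (α i).ne_zero, map_one]
      rw [hni] at h1
      exact eq_inv_of_mul_eq_one_left h1
    · rw [hl, hr]
      simp only [Units.val_inv_eq_inv_val]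
      have hnj : Algebra.norm F (β j : K) = (n (β j) : Fˣ) := rfl
      have h1 : ((α i : K)⁻¹ + (β j : K)⁻¹) * ((α i : K) * (β j : K)) = u i - w j := by
        have h2' := (α i).ne_zero
        have h3 := (β j).ne_zero
        have h4 : ((α i : K)⁻¹ + (β j : K)⁻¹) * ((α i : K) * (β j : K)) =
            (β j : K) + (α i : K) := by
          field_simp
        rw [h4, hα, hβ]
        simp only [Units.val_mk0]
        linear_combination (w j - t) * h2
      have h5 : Algebra.norm F ((α i : K)⁻¹ + (β j : K)⁻¹) *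
          (Algebra.norm F (α i : K) * Algebra.norm F (β j : K)) = 1 := by
        rw [← map_mul, ← map_mul, h1, h _ (huA i) _ (hwB j)]
      rw [hni, hnj] at h5
      have h6 : Algebra.norm F ((α i : K)⁻¹ + (β j : K)⁻¹) =
          (((n (α i) : Fˣ) : F) * ((n (β j) : Fˣ) : F))⁻¹ := eq_inv_of_mul_eq_one_left h5
      rw [h6, mul_inv]
  have hinj : Function.Injective f := by
    intro x y hxy
    rcases x with x | x <;> rcases y with y | y
    · rw [hl, hl] at hxy
      have h1 : (α x : K) = (α y : K) := inv_injective (Prod.ext_iff.1 hxy).1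
      rw [hα] at h1
      simp only [Units.val_mk0, sub_left_inj] at h1
      exact congrArg _ (hui h1)
    · exact absurd hxy (hne x y)
    · exact absurd hxy.symm (hne y x)
    · revert hxy
      refine Fin.cases ?_ (fun x => ?_) x <;> refine Fin.cases ?_ (fun y => ?_) y
      · intro _
        rfl
      · rw [hr0, hr]
        intro h
        have h1 := (Prod.ext_iff.1 h).1
        exact absurd h1.symm (inv_ne_zero (β y).ne_zero)
      · rw [hr0, hr]
        intro h
        have h1 := (Prod.ext_iff.1 h).1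
        exact absurd h1 (inv_ne_zero (β x).ne_zero)
      · rw [hr, hr]
        intro h
        have h1 : (β x : K) = (β y : K) := inv_injective (Prod.ext_iff.1 h).1
        rw [hβ] at h1
        simp only [Units.val_mk0, sub_left_inj] at h1
        rw [hwi h1]
  refine ⟨⟨⟨f, ?_⟩, hinj⟩⟩
  intro x y hxy
  rcases x with x | x <;> rcases y with y | y
  · simp at hxy
  · exact hadj x y
  · exact (hadj y x).symm
  · simp at hxy

end Pool.Agent.Lib.NGE
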