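import Pool.Agent.Lib.NGE.Frb

/-!
# NGE / Carl: the Carlitz module, `P(T)` is the Frobenius map

PROOF IN WORDS. Write `T^n y = ∑_i c(n,i) y^(2^i)` with the formal coefficients `c(0,0) = 1`, `c(n+1,i) = b c(n,i) + c(n,i-1)^2` (left multiplication by `T`). They also satisfy `c(n+1,i) = c(n,i) b^(2^i) + c(n,i-1)` (right multiplication; induction on `n` from both recursions). `C_i = ∑_n P_n c(n,i)`, `P_n ∈ F_2`; the two recursions give
`b C_i + C_(i-1)^2 = C_i b^(2^i) + C_(i-1)` (`P_n^2 = P_n`, squaring is additive in characteristic 2). `C_0 = P(b) = 0`. For `0 < i < deg P`: `b^(2^i) ≠ b` (`pow_ne`), so `C_i = 0` by induction. `c(n,i) = 0` for `i > n`, `c(n,n) = 1`: `C_(deg P) = 1` (monic), `C_i = 0` for `i > deg P`. So `P(T) y = y^(2^(deg P))`.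
(Other way: the additive polynomials in `y` as functions; work with the ring `K →+ K` and the identity `T P(T) = P(T) T`.)
-/

set_option autoImplicit false

namespace Pool.Agent.Lib.NGE

open Polynomial

/-- coefficients of `T ^ n` -/
private def carl_c {K : Type} [Field K] (b : K) : ℕ → ℕ → K
  | 0, 0 => 1
  | 0, _ + 1 => 0
  | n + 1, 0 => b * carl_c b n 0
  | n + 1, i + 1 => b * carl_c b n (i + 1) + carl_c b n i ^ 2

private lemma carl_gt {K : Type} [Field K] (b : K) (n : ℕ) : ∀ i, n < i → carl_c b n i = 0 := by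
  induction n with
  | zero =>
    intro i hi
    obtain ⟨j, rfl⟩ := Nat.exists_eq_succ_of_ne_zero (by omega : i ≠ 0)
    rfl
  | succ n ih =>
    intro i hi
    obtain ⟨j, rfl⟩ := Nat.exists_eq_succ_of_ne_zero (by omega : i ≠ 0)
    change b * carl_c b n (j + 1) + carl_c b n j ^ 2 = 0
    rw [ih (j + 1) (by omega), ih j (by omega)]
    ring

private lemma carl_diag {K : Type} [Field K] (b : K) (n : ℕ) : carl_c b n n = 1 := by
  induction n with
  | zero => rfl
  | succ n ih =>
    change b * carl_c b n (n + 1) + carl_c b n n ^ 2 = 1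
    rw [ih, carl_gt b n (n + 1) (by omega)]
    ring

private lemma carl_zero {K : Type} [Field K] (b : K) (n : ℕ) : carl_c b n 0 = b ^ n := by
  induction n with
  | zero => rw [pow_zero]; rfl
  | succ n ih =>
    change b * carl_c b n 0 = b ^ (n + 1)
    rw [ih, pow_succ']

private lemma carl_right0 {K : Type} [Field K] (b : K) (n : ℕ) : carl_c b (n + 1) 0 = carl_c b n 0 * b := by
  rw [carl_zero, carl_zero, pow_succ]

private lemma carl_right {K : Type} [Field K] [CharP K 2] (b : K) (n : ℕ) :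
    ∀ i, carl_c b (n + 1) (i + 1) = carl_c b n (i + 1) * b ^ 2 ^ (i + 1) + carl_c b n i := by
  induction n with
  | zero =>
    intro i
    change b * carl_c b 0 (i + 1) + carl_c b 0 i ^ 2 = carl_c b 0 (i + 1) * b ^ 2 ^ (i + 1) + carl_c b 0 i
    have h1 : carl_c b 0 (i + 1) = 0 := rfl
    rw [h1]
    rcases i with _ | i
    · have h2 : carl_c b 0 0 = 1 := rfl
      rw [h2]
      ring
    · have h2 : carl_c b 0 (i + 1) = 0 := rfl
      rw [h2]
      ring
  | succ n ih =>
    intro i
    have h1 : carl_c b (n + 2) (i + 1) = b * carl_c b (n + 1) (i + 1) + carl_c b (n + 1) i ^ 2 := rfl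
    have h2 : carl_c b (n + 1) (i + 1) = b * carl_c b n (i + 1) + carl_c b n i ^ 2 := rfl
    have hp : b ^ 2 ^ (i + 1) = (b ^ 2 ^ i) ^ 2 := by rw [← pow_mul, pow_succ]
    rw [h1]
    rcases i with _ | i
    · rw [carl_right0 b n, ih 0, hp]
      rw [ih 0] at h2
      rw [hp] at h2
      simp only [pow_zero, pow_one] at h2 ⊢
      linear_combination (-(b ^ 2)) * h2
    · have h3 : carl_c b (n + 1) (i + 1) = b * carl_c b n (i + 1) + carl_c b n i ^ 2 := rfl
      have h4 : carl_c b (n + 1) (i + 1) ^ 2 = (carl_c b n (i + 1)) ^ 2 * b ^ 2 ^ (i + 2) + carl_c b n i ^ 2 := by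
        rw [ih i, CharTwo.add_sq, mul_pow, ← pow_mul b, ← pow_succ]
      rw [h4, h3, ih (i + 1)]
      rw [ih (i + 1)] at h2
      linear_combination (-(b ^ 2 ^ (i + 2))) * h2

private lemma carl_pow {K : Type} [Field K] [Algebra (ZMod 2) K] [CharP K 2] (b : K) (T : Module.End (ZMod 2) K)
    (hT : ∀ y, T y = y ^ 2 + b * y) (y : K) (m : ℕ) :
    ∀ n ≤ m, (T ^ n) y = ∑ i ∈ Finset.range (m + 1), carl_c b n i * y ^ 2 ^ i := by
  intro n
  induction n with
  | zero =>
    intro _
    rw [pow_zero, Finset.sum_range_succ']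
    have h1 : ∀ i, carl_c b 0 (i + 1) = 0 := fun _ => rfl
    have h2 : carl_c b 0 0 = 1 := rfl
    simp [h1, h2]
  | succ n ih =>
    intro hn
    rw [pow_succ', Module.End.mul_apply, hT, ih (by omega), CharTwo.sum_sq, Finset.sum_range_succ, Finset.sum_range_succ',
      Finset.sum_range_succ', carl_gt b n m (by omega), mul_add, Finset.mul_sum]
    have h1 : ∀ i, carl_c b (n + 1) (i + 1) * y ^ 2 ^ (i + 1) =
        (carl_c b n i * y ^ 2 ^ i) ^ 2 + b * (carl_c b n (i + 1) * y ^ 2 ^ (i + 1)) := by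
      intro i
      have h2 : carl_c b (n + 1) (i + 1) = b * carl_c b n (i + 1) + carl_c b n i ^ 2 := rfl
      rw [h2, mul_pow, ← pow_mul y, ← pow_succ]
      ring
    have h3 : carl_c b (n + 1) 0 = b * carl_c b n 0 := rfl
    rw [Finset.sum_congr rfl fun i _ => h1 i, Finset.sum_add_distrib, h3]
    ring

theorem carlitz {K : Type} [Field K] [Algebra (ZMod 2) K] (b : K) (P : (ZMod 2)[X]) (hP : Irreducible P) (hPm : P.Monic)
    (hb : aeval b P = 0) (T : Module.End (ZMod 2) K) (hT : ∀ y, T y = y ^ 2 + b * y) (y : K) :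
    aeval T P y = y ^ 2 ^ P.natDegree := by
  have : CharP K 2 := charP_of_injective_algebraMap (algebraMap (ZMod 2) K).injective 2
  set D := P.natDegree with hD
  have hD0 : 0 < D := hP.natDegree_pos
  let a : ℕ → K := fun n => algebraMap (ZMod 2) K (P.coeff n)
  have ha : ∀ n, a n ^ 2 = a n := by
    intro n
    change (algebraMap (ZMod 2) K (P.coeff n)) ^ 2 = algebraMap (ZMod 2) K (P.coeff n)
    rw [← map_pow]
    congr 1
    exact ZMod.pow_card (p := 2) (P.coeff n)
  let C : ℕ → K := fun i => ∑ n ∈ Finset.range (D + 1), a n * carl_c b n i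
  have hC0 : C 0 = 0 := by
    rw [← hb, aeval_eq_sum_range]
    refine Finset.sum_congr rfl fun n _ => ?_
    rw [carl_zero, Algebra.smul_def]
  have hrec : ∀ i, b * C (i + 1) + C i ^ 2 = C (i + 1) * b ^ 2 ^ (i + 1) + C i := by
    intro i
    have h1 : ∑ n ∈ Finset.range (D + 1), a n * carl_c b (n + 1) (i + 1) = b * C (i + 1) + C i ^ 2 := by
      change _ = b * (∑ n ∈ Finset.range (D + 1), a n * carl_c b n (i + 1)) +
        (∑ n ∈ Finset.range (D + 1), a n * carl_c b n i) ^ 2
      rw [CharTwo.sum_sq, Finset.mul_sum, ← Finset.sum_add_distrib]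
      refine Finset.sum_congr rfl fun n _ => ?_
      have h2 : carl_c b (n + 1) (i + 1) = b * carl_c b n (i + 1) + carl_c b n i ^ 2 := rfl
      rw [h2, mul_pow, ha]
      ring
    have h2 : ∑ n ∈ Finset.range (D + 1), a n * carl_c b (n + 1) (i + 1) = C (i + 1) * b ^ 2 ^ (i + 1) + C i := by
      change _ = (∑ n ∈ Finset.range (D + 1), a n * carl_c b n (i + 1)) * b ^ 2 ^ (i + 1) +
        ∑ n ∈ Finset.range (D + 1), a n * carl_c b n i
      rw [Finset.sum_mul, ← Finset.sum_add_distrib]
      refine Finset.sum_congr rfl fun n _ => ?_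
      rw [carl_right]
      ring
    rw [← h1, h2]
  have hCi : ∀ i, i < D → C i = 0 := by
    intro i
    induction i with
    | zero => exact fun _ => hC0
    | succ i ih =>
      intro hi
      have h1 := hrec i
      rw [ih (by omega)] at h1
      have h2 : C (i + 1) * (b ^ 2 ^ (i + 1) - b) = 0 := by linear_combination -h1
      rcases mul_eq_zero.1 h2 with h3 | h3
      · exact h3
      · exact absurd (sub_eq_zero.1 h3) (pow_ne b P hP hb (i + 1) (by omega) hi)
  have hCD : C D = 1 := by
    change ∑ n ∈ Finset.range (D + 1), a n * carl_c b n D = 1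
    rw [Finset.sum_range_succ, Finset.sum_eq_zero, carl_diag, zero_add, mul_one]
    · change algebraMap (ZMod 2) K (P.coeff D) = 1
      rw [hD, hPm.coeff_natDegree, map_one]
    · intro n hn
      rw [carl_gt b n D (Finset.mem_range.1 hn), mul_zero]
  have hfin : aeval T P y = ∑ i ∈ Finset.range (D + 1), C i * y ^ 2 ^ i := by
    rw [aeval_eq_sum_range, LinearMap.sum_apply]
    change _ = ∑ i ∈ Finset.range (D + 1), (∑ n ∈ Finset.range (D + 1), a n * carl_c b n i) * y ^ 2 ^ i
    have h1 : ∀ i, (∑ n ∈ Finset.range (D + 1), a n * carl_c b n i) * y ^ 2 ^ i =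
        ∑ n ∈ Finset.range (D + 1), a n * (carl_c b n i * y ^ 2 ^ i) := by
      intro i
      rw [Finset.sum_mul]
      refine Finset.sum_congr rfl fun n _ => ?_
      ring
    rw [Finset.sum_congr rfl fun i _ => h1 i, Finset.sum_comm]
    refine Finset.sum_congr rfl fun n hn => ?_
    rw [LinearMap.smul_apply, carl_pow b T hT y D n (by have := Finset.mem_range.1 hn; omega), Algebra.smul_def,
      Finset.mul_sum]
  rw [hfin, Finset.sum_range_succ, hCD, one_mul, Finset.sum_eq_zero, zero_add]
  intro i hi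
  rw [hCi i (Finset.mem_range.1 hi), zero_mul]

end Pool.Agent.Lib.NGE
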