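import Pool.Agent.Lib.NGE.MonL

/-!
# NGE / CcZ: the coefficients `cc` of a nontrivial character vanish from degree `m = deg M` on

PROOF IN WORDS. `n ≥ m`. The map `f ↦ mk M f` from `Mon n` to `AdjoinRoot M` has all fibres of the same size `2^(n-m)`: every class has a unique representative of degree `< m` (`modByMonic`), and `f = M q + r` with `q ∈ Mon (n-m)`, `deg r < m`. (Or: `Mon n` is the disjoint union over `q ∈ Mon (n-m)` of `{M q + r : deg r < m}`, and for fixed `q` the map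
`r ↦ mk M (M q + r) = mk M r` is a bijection onto `AdjoinRoot M`.) So `cc (hom M χ) n = 2^(n-m) ∑_x χ x = 0` (`MulChar.sum_eq_zero_of_ne_one`, a `Fintype` instance from `finite_quot`). `‖χ x‖ ≤ 1`: `χ x = 0` or a root of unity.
-/

set_option autoImplicit false

namespace Pool.Agent.Lib.NGE

open Polynomial

theorem cc_zero (M : (ZMod 2)[X]) (hM : M.Monic) (χ : MulChar (AdjoinRoot M) ℂ) (hχ : χ ≠ 1) (n : ℕ)
    (hn : M.natDegree ≤ n) : cc (hom M χ) n = 0 := by
  classical
  have hfin := finite_quot M hM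
  have hft := Fintype.ofFinite (AdjoinRoot M)
  have hsum : ∑ x : AdjoinRoot M, χ x = 0 := MulChar.sum_eq_zero_of_ne_one hχ
  have key : ∀ z : AdjoinRoot M, ∑ f ∈ Mon n, χ (AdjoinRoot.mk M f + z) = cc (hom M χ) n := by
    intro z
    obtain ⟨g, rfl⟩ := AdjoinRoot.mk_surjective z
    have hd : AdjoinRoot.mk M (g %ₘ M) = AdjoinRoot.mk M g := by
      rw [AdjoinRoot.mk_eq_mk]
      exact ⟨-(g /ₘ M), by linear_combination modByMonic_add_div g M⟩
    rw [← hd]
    have hdeg : ∀ f ∈ Mon n, (g %ₘ M).degree < f.degree := by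
      intro f hf
      rw [mem_Mon] at hf
      refine (degree_modByMonic_lt g hM).trans_le ?_
      rw [degree_eq_natDegree hM.ne_zero, degree_eq_natDegree hf.1.ne_zero, hf.2]
      exact_mod_cast hn
    unfold cc
    refine Finset.sum_nbij' (fun f => f + g %ₘ M) (fun f => f - g %ₘ M) ?_ ?_ ?_ ?_ ?_
    · intro f hf
      have h1 := hdeg f hf
      rw [mem_Mon] at hf ⊢
      exact ⟨hf.1.add_of_left h1, by rw [natDegree_add_eq_left_of_degree_lt h1, hf.2]⟩
    · intro f hf
      have h1 := hdeg f hf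
      rw [mem_Mon] at hf ⊢
      rw [← degree_neg] at h1
      rw [sub_eq_add_neg]
      exact ⟨hf.1.add_of_left h1, by rw [natDegree_add_eq_left_of_degree_lt h1, hf.2]⟩
    · intro f _
      simp
    · intro f _
      simp
    · intro f _
      simp [hom]
  have h1 : ∑ z : AdjoinRoot M, ∑ f ∈ Mon n, χ (AdjoinRoot.mk M f + z) = 0 := by
    rw [Finset.sum_comm]
    refine Finset.sum_eq_zero fun f _ => ?_
    rw [← hsum]
    exact Equiv.sum_comp (Equiv.addLeft (AdjoinRoot.mk M f)) (fun x => χ x)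
  simp only [key, Finset.sum_const, Finset.card_univ, nsmul_eq_mul, mul_eq_zero, Nat.cast_eq_zero] at h1
  rcases h1 with h1 | h1
  · exact absurd h1 Fintype.card_ne_zero
  · exact h1

theorem norm_hom_le (M : (ZMod 2)[X]) (hM : M.Monic) (χ : MulChar (AdjoinRoot M) ℂ) (f : (ZMod 2)[X]) :
    ‖hom M χ f‖ ≤ 1 := by
  classical
  have hfin := finite_quot M hM
  change ‖χ (AdjoinRoot.mk M f)‖ ≤ 1
  by_cases hu : IsUnit (AdjoinRoot.mk M f)
  · obtain ⟨u, hu⟩ := hu
    rw [← hu]
    have h1 : u ^ Nat.card (AdjoinRoot M)ˣ = 1 := pow_card_eq_one'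
    have h2 : χ (u : AdjoinRoot M) ^ Nat.card (AdjoinRoot M)ˣ = 1 := by
      rw [← map_pow, ← Units.val_pow_eq_pow_val, h1, Units.val_one, map_one]
    have h3 : ‖χ (u : AdjoinRoot M)‖ ^ Nat.card (AdjoinRoot M)ˣ = 1 := by
      rw [← norm_pow, h2, norm_one]
    exact ((pow_eq_one_iff_of_nonneg (norm_nonneg _) Nat.card_pos.ne').mp h3).le
  · rw [MulChar.map_nonunit χ hu]
    simp

end Pool.Agent.Lib.NGE
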