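import Pool.Agent.Lib.NGE.MonL

/-!
# NGE / Cj: the conjugate character

PROOF IN WORDS. `χ.ringHomComp (starRingEnd ℂ)` is `x ↦ conj (χ x)`. `SS_conj`: `map_sum`, `map_pow`. `conj_ne_one`: `conj` is injective and fixes `0, 1`. `real_vals`: `conj (χ x) = χ x` for all `x`; `χ x = 0` (not a unit) or `‖χ x‖ = 1` (the ring is finite, `finite_quot`, so a root of unity), a real number of absolute value 1 is `±1`.
-/

set_option autoImplicit false

namespace Pool.Agent.Lib.NGE

open Polynomial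

private theorem hom_conj (M : (ZMod 2)[X]) (χ : MulChar (AdjoinRoot M) ℂ) (f : (ZMod 2)[X]) :
    hom M (χ.ringHomComp (starRingEnd ℂ)) f = starRingEnd ℂ (hom M χ f) := rfl

private theorem hom_eq (M : (ZMod 2)[X]) (χ : MulChar (AdjoinRoot M) ℂ) (f : (ZMod 2)[X]) :
    hom M χ f = χ (AdjoinRoot.mk M f) := rfl

theorem SS_conj (M : (ZMod 2)[X]) (χ : MulChar (AdjoinRoot M) ℂ) (e : ℕ) :
    SS (hom M (χ.ringHomComp (starRingEnd ℂ))) e = starRingEnd ℂ (SS (hom M χ) e) := by
  unfold SS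
  rw [map_sum]
  refine Finset.sum_congr rfl fun r _ => ?_
  rw [map_sum]
  refine Finset.sum_congr rfl fun P _ => ?_
  rw [hom_conj, map_mul, map_pow, Complex.conj_natCast]

theorem conj_ne_one (M : (ZMod 2)[X]) (χ : MulChar (AdjoinRoot M) ℂ) (hχ : χ ≠ 1) :
    χ.ringHomComp (starRingEnd ℂ) ≠ 1 := by
  intro h
  apply hχ
  ext a
  have h1 : (χ.ringHomComp (starRingEnd ℂ)) (a : AdjoinRoot M) = (1 : MulChar (AdjoinRoot M) ℂ) a := by rw [h]
  rw [MulChar.one_apply_coe] at h1 ⊢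
  have h2 : starRingEnd ℂ (χ (a : AdjoinRoot M)) = 1 := h1
  have h3 := congrArg (starRingEnd ℂ) h2
  rw [Complex.conj_conj, map_one] at h3
  exact h3

theorem real_vals (M : (ZMod 2)[X]) (hM : M.Monic) (χ : MulChar (AdjoinRoot M) ℂ)
    (h : χ.ringHomComp (starRingEnd ℂ) = χ) (f : (ZMod 2)[X]) : hom M χ f = 1 ∨ hom M χ f = -1 ∨ hom M χ f = 0 := by
  classical
  have hfin : Finite (AdjoinRoot M) := finite_quot M hM
  rw [hom_eq]
  set x := AdjoinRoot.mk M f with hx
  by_cases hu : IsUnit x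
  · obtain ⟨u, hu⟩ := hu
    have hreal : starRingEnd ℂ (χ x) = χ x := by
      have h1 : (χ.ringHomComp (starRingEnd ℂ)) x = χ x := by rw [h]
      exact h1
    have hft : Fintype (AdjoinRoot M)ˣ := Fintype.ofFinite _
    have hpow : (χ x) ^ Fintype.card (AdjoinRoot M)ˣ = 1 := by
      rw [← hu, ← map_pow, ← Units.val_pow_eq_pow_val, pow_card_eq_one, Units.val_one, map_one]
    have hnorm : ‖χ x‖ = 1 := Complex.norm_eq_one_of_pow_eq_one hpow Fintype.card_pos.ne'
    have hsq : (χ x) * (χ x) = 1 := by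
      have h2 : χ x * starRingEnd ℂ (χ x) = 1 := by
        rw [Complex.mul_conj, Complex.normSq_eq_norm_sq, hnorm]
        norm_num
      rwa [hreal] at h2
    rcases mul_self_eq_one_iff.1 hsq with h3 | h3
    · exact Or.inl h3
    · exact Or.inr (Or.inl h3)
  · exact Or.inr (Or.inr (χ.map_nonunit hu))

end Pool.Agent.Lib.NGE
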