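import Mathlib

/-!
# NGE: irreducible polynomials over F_2 in residue classes and bicliques of NG(q, s) for even q, definitions

`Mon n`: the monic polynomials of degree `n` over `F_2`; `Irr n`: the irreducible ones. For a multiplicative function `h`: `cc h n` is the sum over `Mon n`, `SS h n` the sum over all prime powers `P^k` of degree `n` of `deg P * h(P)^k`.
-/

set_option autoImplicit false

namespace Pool.Agent.Lib.NGE

open Polynomial

open Classical in
/-- the monic polynomials of degree `n` -/
noncomputable def Mon (n : ℕ) : Finset (ZMod 2)[X] :=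
  (Finset.univ : Finset (Fin n → ZMod 2)).image fun c => X ^ n + ∑ i : Fin n, C (c i) * X ^ (i : ℕ)

open Classical in
/-- the irreducible monic polynomials of degree `n` -/
noncomputable def Irr (n : ℕ) : Finset (ZMod 2)[X] := (Mon n).filter fun P => Irreducible P

/-- coefficients of the L-function -/
noncomputable def cc (h : (ZMod 2)[X] →* ℂ) (n : ℕ) : ℂ := ∑ f ∈ Mon n, h f

/-- coefficients of the logarithmic derivative -/
noncomputable def SS (h : (ZMod 2)[X] →* ℂ) (n : ℕ) : ℂ :=
  ∑ r ∈ n.divisors, ∑ P ∈ Irr r, (r : ℂ) * h P ^ (n / r)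

/-- a character modulo `M` as a function of polynomials -/
noncomputable def hom (M : (ZMod 2)[X]) (χ : MulChar (AdjoinRoot M) ℂ) : (ZMod 2)[X] →* ℂ :=
  χ.toMonoidHom.comp (AdjoinRoot.mk M).toMonoidHom

/-- the number of elements of absolute value `2` -/
noncomputable def k2 (A : Multiset ℂ) : ℕ := by
  classical exact (A.filter fun α => ‖α‖ = 2).card

end Pool.Agent.Lib.NGE
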