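import Mathlib

/-!
# NGE / EvN: the norm of a difference

PROOF IN WORDS. `d = x - y ≠ 0`, `q = card F` is a power of 2 (`F` is finite of characteristic 2), so the `q`-th power is additive: `d^q = d^2 + β d = d (d + β)`, `β` = image of `b`. Norm to `F`: `N(d)^q = N(d) N(d + β)` and `N(d)^q = N(d)` (`FiniteField.pow_card` for `N(d) ∈ F`), `N(d) ≠ 0`, so `N(d + β) = 1`, and `x - (y + β) = d + β` in characteristic 2.
(`Finite F`: `F` embeds in `K`.)
-/

set_option autoImplicit false

namespace Pool.Agent.Lib.NGE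

theorem norm_one {F K : Type} [Field F] [Field K] [Finite K] [Algebra F K] (h2 : (2 : K) = 0) (b : F) (x y : K)
    (hne : x ≠ y) (hx : x ^ Nat.card F = x ^ 2 + algebraMap F K b * x) (hy : y ^ Nat.card F = y ^ 2 + algebraMap F K b * y) :
    Algebra.norm F (x - (y + algebraMap F K b)) = 1 := by
  have hF : Finite F := Finite.of_injective (algebraMap F K) (algebraMap F K).injective
  have : Fintype F := Fintype.ofFinite F
  have hK2 : CharP K 2 := CharTwo.of_one_ne_zero_of_two_eq_zero one_ne_zero h2
  have hF2 : CharP F 2 := ((algebraMap F K).charP_iff (algebraMap F K).injective 2).mpr hK2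
  have : Fact (Nat.Prime 2) := ⟨Nat.prime_two⟩
  have : Module.Finite F K := inferInstance
  obtain ⟨n, _, hn⟩ := FiniteField.card F 2
  have hcard : Nat.card F = 2 ^ (n : ℕ) := by rw [Nat.card_eq_fintype_card, hn]
  set β := algebraMap F K b with hβ
  have hd0 : x - y ≠ 0 := sub_ne_zero.mpr hne
  have h1 : (x - y) ^ Nat.card F = (x - y) * (x - (y + β)) := by
    have h3 : (x - y) ^ Nat.card F = x ^ Nat.card F - y ^ Nat.card F := by
      rw [hcard]
      exact sub_pow_char_pow (p := 2) (n := (n : ℕ)) x y
    rw [h3, hx, hy]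
    linear_combination (x - y) * (y + β) * h2
  have h4 : Algebra.norm F (x - y) ^ Nat.card F = Algebra.norm F (x - y) := by
    rw [Nat.card_eq_fintype_card]
    exact FiniteField.pow_card _
  have h5 : Algebra.norm F (x - y) ≠ 0 := Algebra.norm_ne_zero_iff.mpr hd0
  have h6 : Algebra.norm F (x - y) * Algebra.norm F (x - (y + β)) = Algebra.norm F (x - y) * 1 := by
    rw [← map_mul, ← h1, map_pow, h4, mul_one]
  exact mul_left_cancel₀ h5 h6

end Pool.Agent.Lib.NGE
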