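import Mathlib

/-!
# NGE / VKa: the root `b`

PROOF IN WORDS. `F` has `2^e` elements, `P` of degree `e` is irreducible: `AdjoinRoot P` has `2^e` elements too, and finite fields of equal cardinality are isomorphic as `F_2`-algebras (`FiniteField.algEquivOfCardEq`); or `P ∣ X^(2^e) - X`, which splits in `F`. `b` = the image of the root. If `b^m = 1` then `P ∣ X^m - 1` (`minpoly`), `X^m - 1 ∣ P - X`,
so `P ∣ X`, `P` is `X` up to a unit, and `X ∣ X^m - 1`, false as `m ≥ 1`. `descent`: `X^(card K) - X = ∏_{x ∈ K} (X - x)` over `K` (`FiniteField.X_pow_card_sub_X_..`), map to `Ω` and evaluate at `y`.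
-/

set_option autoImplicit false

namespace Pool.Agent.Lib.NGE

open Polynomial

theorem exists_b {F : Type} [Field F] [Algebra (ZMod 2) F] (m e : ℕ) (hm : 1 ≤ m) (hF : Nat.card F = 2 ^ e)
    (P : (ZMod 2)[X]) (hP : Irreducible P) (hPm : P.Monic) (hPe : P.natDegree = e)
    (hPM : (X ^ m - 1 : (ZMod 2)[X]) ∣ P - X) : ∃ b : F, aeval b P = 0 ∧ b ^ m ≠ 1 := by
  have hFact : Fact (Irreducible P) := ⟨hP⟩
  have hfin : Module.Finite (ZMod 2) (AdjoinRoot P) := (AdjoinRoot.powerBasis hP.ne_zero).finite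
  have hcard : Nat.card (AdjoinRoot P) = 2 ^ e := by
    rw [Module.natCard_eq_pow_finrank (K := ZMod 2),
      (AdjoinRoot.powerBasis hP.ne_zero).finrank, AdjoinRoot.powerBasis_dim, hPe]
    simp
  let φ : AdjoinRoot P ≃ₐ[ZMod 2] F :=
    (GaloisField.algEquivGaloisField 2 e hcard).trans
      (GaloisField.algEquivGaloisField 2 e hF).symm
  have hroot : aeval (φ (AdjoinRoot.root P)) P = 0 := by
    have h1 : aeval (φ (AdjoinRoot.root P)) P = φ (aeval (AdjoinRoot.root P) P) := by
      exact aeval_algHom_apply φ.toAlgHom (AdjoinRoot.root P) P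
    rw [h1, AdjoinRoot.aeval_eq, AdjoinRoot.mk_self, map_zero]
  refine ⟨φ (AdjoinRoot.root P), hroot, fun hb => ?_⟩
  set b := φ (AdjoinRoot.root P) with hbdef
  have h1 : aeval b (X ^ m - 1 : (ZMod 2)[X]) = 0 := by simp [hb]
  obtain ⟨Q, hQ⟩ := hPM
  have h2 : aeval b (P - X) = 0 := by rw [hQ, map_mul, h1, zero_mul]
  rw [map_sub, hroot, aeval_X, zero_sub, neg_eq_zero] at h2
  rw [h2, zero_pow (by omega)] at hb
  exact zero_ne_one hb

theorem descent {K Ω : Type} [Field K] [Finite K] [Field Ω] [Algebra K Ω] (y : Ω) (h : y ^ Nat.card K = y) :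
    ∃ x : K, algebraMap K Ω x = y := by
  have hs : Splits (X ^ (Nat.card K) - X : K[X]) := Polynomial.splits_X_pow_nat_card_sub_X
  have h1 : (X ^ (Nat.card K) - X : K[X]) = (Multiset.map (fun a => X - C a)
      (X ^ (Nat.card K) - X : K[X]).roots).prod := by
    have h2 := hs.eq_prod_roots_of_monic (by
      refine monic_X_pow_sub ?_
      rw [degree_X]
      exact_mod_cast (Finite.one_lt_card : 1 < Nat.card K))
    exact h2
  have h3 : aeval y (X ^ (Nat.card K) - X : K[X]) = 0 := by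
    rw [map_sub, map_pow, aeval_X, h, sub_self]
  rw [h1, map_multiset_prod, Multiset.map_map, Multiset.prod_eq_zero_iff] at h3
  rw [Multiset.mem_map] at h3
  obtain ⟨a, -, ha⟩ := h3
  refine ⟨a, ?_⟩
  simp only [Function.comp_apply, map_sub, aeval_X, aeval_C] at ha
  exact (sub_eq_zero.1 ha).symm

end Pool.Agent.Lib.NGE
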