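import Mathlib

/-!
# NGE / VKb: the fixed points of `T^m`

PROOF IN WORDS. Polynomials `p 0 = X`, `p (n+1) = p n ^ 2 + C b * p n`: `p n` is monic of degree `2^n`, `eval y (p n) = (T^n) y` , `derivative (p n) = C (b^n)` (characteristic 2). `G = p m - X`, `m ≥ 1` (as `b^m ≠ 1`), is monic of degree `2^m` with derivative the nonzero constant `b^m - 1`, so separable; in the algebraically closed field it has `2^m` different roots
(`Polynomial.card_rootSet_eq_natDegree` or `nodup_roots` with `IsAlgClosed.splits`). `W = G.roots.toFinset`.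
-/

set_option autoImplicit false

namespace Pool.Agent.Lib.NGE

open Polynomial

private noncomputable def pp {Ω : Type} [Field Ω] (b : Ω) : ℕ → Polynomial Ω
  | 0 => X
  | n + 1 => pp b n ^ 2 + C b * pp b n

private lemma pp_monic {Ω : Type} [Field Ω] (b : Ω) (n : ℕ) :
    (pp b n).Monic ∧ (pp b n).natDegree = 2 ^ n := by
  induction n with
  | zero => exact ⟨monic_X, by rw [pp, natDegree_X, pow_zero]⟩
  | succ n ih =>
    have hm2 : (pp b n ^ 2).Monic := ih.1.pow 2
    have hd2 : (pp b n ^ 2).natDegree = 2 ^ (n + 1) := by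
      rw [ih.1.natDegree_pow, ih.2]
      ring
    have hlt : (C b * pp b n).natDegree < (pp b n ^ 2).natDegree := by
      refine lt_of_le_of_lt (natDegree_C_mul_le _ _) ?_
      rw [hd2, ih.2]
      exact Nat.pow_lt_pow_right (by norm_num) (Nat.lt_succ_self n)
    have hlt' : (C b * pp b n).degree < (pp b n ^ 2).degree :=
      degree_lt_degree hlt
    refine ⟨?_, ?_⟩
    · rw [pp]
      exact hm2.add_of_left hlt'
    · rw [pp, natDegree_add_eq_left_of_natDegree_lt hlt, hd2]

private lemma pp_deriv {Ω : Type} [Field Ω] [CharP Ω 2] (b : Ω) (n : ℕ) :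
    derivative (pp b n) = C (b ^ n) := by
  induction n with
  | zero => rw [pp, derivative_X, pow_zero, C_1]
  | succ n ih =>
    rw [pp, derivative_add, derivative_mul, derivative_C, zero_mul, zero_add, ih, derivative_pow]
    have h2 : ((2 : ℕ) : Ω) = 0 := CharP.cast_eq_zero Ω 2
    rw [h2, C_0, zero_mul, zero_mul, zero_add, ← C_mul]
    congr 1
    ring

private lemma pp_eval {Ω : Type} [Field Ω] [Algebra (ZMod 2) Ω] (b : Ω)
    (T : Module.End (ZMod 2) Ω) (hT : ∀ y, T y = y ^ 2 + b * y) (n : ℕ) (y : Ω) :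
    eval y (pp b n) = (T ^ n) y := by
  induction n with
  | zero => rw [pp, eval_X, pow_zero, Module.End.one_apply]
  | succ n ih =>
    have h1 : (T ^ (n + 1)) y = T ((T ^ n) y) := by
      rw [pow_succ' T n, Module.End.mul_apply]
    rw [pp, eval_add, eval_pow, eval_mul, eval_C, ih, h1, hT]

theorem roots_T {Ω : Type} [Field Ω] [IsAlgClosed Ω] [Algebra (ZMod 2) Ω] (b : Ω) (m : ℕ) (hb : b ^ m ≠ 1)
    (T : Module.End (ZMod 2) Ω) (hT : ∀ y, T y = y ^ 2 + b * y) :
    ∃ W : Finset Ω, W.card = 2 ^ m ∧ ∀ y ∈ W, (T ^ m) y = y := by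
  classical
  have : CharP Ω 2 := charP_of_injective_algebraMap (algebraMap (ZMod 2) Ω).injective 2
  have hm : m ≠ 0 := by
    rintro rfl
    exact hb (pow_zero b)
  set G : Polynomial Ω := pp b m - X with hG
  have hlt : (X : Polynomial Ω).natDegree < (pp b m).natDegree := by
    rw [natDegree_X, (pp_monic b m).2]
    exact Nat.one_lt_two_pow hm
  have hdeg : G.natDegree = 2 ^ m := by
    rw [hG, natDegree_sub_eq_left_of_natDegree_lt hlt, (pp_monic b m).2]
  have hG0 : G ≠ 0 := by
    intro h
    rw [h, natDegree_zero] at hdeg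
    have : 0 < 2 ^ m := by positivity
    omega
  have hder : derivative G = C (b ^ m - 1) := by
    rw [hG, derivative_sub, derivative_X, pp_deriv, C_sub, C_1]
  have hsep : G.Separable := by
    have hc : b ^ m - 1 ≠ 0 := sub_ne_zero.mpr hb
    rw [Polynomial.separable_def, hder]
    exact ⟨0, C ((b ^ m - 1)⁻¹), by rw [zero_mul, zero_add, ← C_mul, inv_mul_cancel₀ hc, C_1]⟩
  refine ⟨G.roots.toFinset, ?_, ?_⟩
  · rw [Multiset.toFinset_card_of_nodup (nodup_roots hsep), ← hdeg]
    exact (splits_iff_card_roots).mp (IsAlgClosed.splits G)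
  · intro y hy
    rw [Multiset.mem_toFinset, mem_roots hG0, IsRoot.def, hG, eval_sub, eval_X, pp_eval b T hT] at hy
    exact sub_eq_zero.mp hy

end Pool.Agent.Lib.NGE
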