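import Pool.Agent.Lib.NGE.Carl
import Pool.Agent.Lib.NGE.VKa
import Pool.Agent.Lib.NGE.VKb

/-!
# NGE / VK: the points

PROOF IN WORDS. `F` has characteristic 2 (`e ≥ 1`), make `F`, `K`, `Ω = AlgebraicClosure K` algebras over `ZMod 2` (`ZMod.algebra`; `Subsingleton` instances), `b` from `exists_b`, `β` its image in `Ω`, `T y = y^2 + β y` as a `ZMod 2`-linear map (additive; `AddMonoidHom.toZModLinearMap`). `W` from `roots_T` (`β^m ≠ 1`). For `y ∈ W`: `P = X + (X^m - 1) H`, so
`y^(2^e) = aeval T P y = T y + H(T) (T^m y - y) = T y` (`carlitz`; the values of `aeval T` commute). By induction `y^(2^(e j)) = (T^j) y` (`β^(2^e) = β`, the power map is additive), so `y^(card K) = y^(2^(e m)) = (T^m) y = y` (`card K = (card F)^m`: `Module.card_eq_pow_finrank`). `descent`: `y` comes from a point of `K`. `V` = the preimage of `W`, `2^m` points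
(`algebraMap` is injective), and `y^q = y^2 + β y` descends to `K`.
-/

set_option autoImplicit false

namespace Pool.Agent.Lib.NGE

open Polynomial

private theorem pow_fix {Ω : Type} [Field Ω] [Algebra (ZMod 2) Ω] (m e : ℕ) (β : Ω)
    (P : (ZMod 2)[X]) (hP : Irreducible P) (hPm : P.Monic) (hPe : P.natDegree = e)
    (hPM : (X ^ m - 1 : (ZMod 2)[X]) ∣ P - X) (hβ : aeval β P = 0)
    (T : Module.End (ZMod 2) Ω) (hT : ∀ y, T y = y ^ 2 + β * y) (y : Ω) (hy : (T ^ m) y = y) :
    y ^ 2 ^ e = T y := by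
  obtain ⟨H, hH⟩ := hPM
  have h1 : P = X + H * (X ^ m - 1) := by
    have h2 : P = X + (P - X) := by ring
    rw [h2, hH]
    ring
  have h3 := carlitz β P hP hPm hβ T hT y
  rw [hPe] at h3
  rw [← h3]
  conv_lhs => rw [h1]
  rw [map_add, map_mul, map_sub, map_pow, map_one, aeval_X, LinearMap.add_apply, Module.End.mul_apply,
    LinearMap.sub_apply, hy, Module.End.one_apply, sub_self, map_zero, add_zero]

private theorem pow_iter {Ω : Type} [Field Ω] [Algebra (ZMod 2) Ω] (m e : ℕ) (β : Ω)
    (P : (ZMod 2)[X]) (hP : Irreducible P) (hPm : P.Monic) (hPe : P.natDegree = e)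
    (hPM : (X ^ m - 1 : (ZMod 2)[X]) ∣ P - X) (hβ : aeval β P = 0)
    (T : Module.End (ZMod 2) Ω) (hT : ∀ y, T y = y ^ 2 + β * y) (y : Ω) (hy : (T ^ m) y = y) (j : ℕ) :
    y ^ (2 ^ e) ^ j = (T ^ j) y := by
  induction j with
  | zero => simp
  | succ j ih =>
    have h1 : (T ^ m) ((T ^ j) y) = (T ^ j) y := by
      rw [← Module.End.mul_apply, ← pow_add, add_comm, pow_add, Module.End.mul_apply, hy]
    rw [pow_succ, pow_mul, ih, pow_fix m e β P hP hPm hPe hPM hβ T hT _ h1, ← Module.End.mul_apply, ← pow_succ']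

theorem exists_V {F K : Type} [Field F] [Field K] [Finite K] [Algebra F K] (m e : ℕ) (hm : 1 ≤ m)
    (hK : Module.finrank F K = m) (hF : Nat.card F = 2 ^ e) (P : (ZMod 2)[X]) (hP : Irreducible P) (hPm : P.Monic)
    (hPe : P.natDegree = e) (hPM : (X ^ m - 1 : (ZMod 2)[X]) ∣ P - X) :
    ∃ (b : F) (V : Finset K), V.card = 2 ^ m ∧ ∀ y ∈ V, y ^ Nat.card F = y ^ 2 + algebraMap F K b * y := by
  classical
  haveI : Finite F := Finite.of_injective (algebraMap F K) (algebraMap F K).injective
  have he : e ≠ 0 := by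
    intro h0
    rw [h0] at hPe
    have h1 := (hPm.natDegree_eq_zero).1 hPe
    rw [h1] at hP
    exact hP.not_isUnit isUnit_one
  have h2F : (2 : F) = 0 := by
    letI := Fintype.ofFinite F
    have h1 := FiniteField.cast_card_eq_zero F
    rw [← Nat.card_eq_fintype_card, hF] at h1
    push_cast at h1
    exact pow_eq_zero_iff he |>.1 h1
  haveI hcF : CharP F 2 := CharTwo.of_one_ne_zero_of_two_eq_zero one_ne_zero h2F
  haveI hcK : CharP K 2 := charP_of_injective_algebraMap (algebraMap F K).injective 2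
  letI aF : Algebra (ZMod 2) F := ZMod.algebra F 2
  letI aK : Algebra (ZMod 2) K := ZMod.algebra K 2
  obtain ⟨b, hb1, hb2⟩ := exists_b (F := F) m e hm hF P hP hPm hPe hPM
  set φ : F →+* AlgebraicClosure K := (algebraMap K (AlgebraicClosure K)).comp (algebraMap F K) with hφ
  have hβ : aeval (φ b) P = 0 := by
    have h1 : φ (aeval b P) = 0 := by rw [hb1, map_zero]
    rw [aeval_def, hom_eval₂] at h1
    rw [aeval_def]
    convert h1 using 2
    exact Subsingleton.elim _ _
  have hβm : (φ b) ^ m ≠ 1 := by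
    intro h
    apply hb2
    apply φ.injective
    rw [map_pow, h, map_one]
  haveI hcΩ : CharP (AlgebraicClosure K) 2 :=
    charP_of_injective_algebraMap (algebraMap K (AlgebraicClosure K)).injective 2
  let T0 : AlgebraicClosure K →+ AlgebraicClosure K :=
    { toFun := fun y => y ^ 2 + φ b * y
      map_zero' := by simp
      map_add' := fun x y => by
        rw [CharTwo.add_sq]
        ring }
  let T : Module.End (ZMod 2) (AlgebraicClosure K) := T0.toZModLinearMap 2
  have hT : ∀ y, T y = y ^ 2 + φ b * y := fun y => rfl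
  obtain ⟨W, hW1, hW2⟩ := roots_T (φ b) m hβm T hT
  have hcard : Nat.card K = (2 ^ e) ^ m := by
    rw [Module.natCard_eq_pow_finrank (K := F) (V := K), hF, hK]
  have hdesc : ∀ y : W, ∃ x : K, algebraMap K (AlgebraicClosure K) x = y.1 := by
    intro y
    apply descent
    rw [hcard, pow_iter m e (φ b) P hP hPm hPe hPM hβ T hT y.1 (hW2 _ y.2) m, hW2 _ y.2]
  choose g hg using hdesc
  refine ⟨b, W.attach.image g, ?_, ?_⟩
  · rw [Finset.card_image_of_injective, Finset.card_attach, hW1]
    intro y1 y2 h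
    apply Subtype.ext
    rw [← hg y1, ← hg y2, h]
  · intro x hx
    obtain ⟨y, -, rfl⟩ := Finset.mem_image.1 hx
    apply (algebraMap K (AlgebraicClosure K)).injective
    rw [map_pow, map_add, map_mul, map_pow, hg, hF,
      pow_fix m e (φ b) P hP hPm hPe hPM hβ T hT y.1 (hW2 _ y.2), hT]
    rfl

end Pool.Agent.Lib.NGE
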