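import Pool.Agent.Lib.NGE.Dir
import Pool.Agent.Lib.NGE.VK
import Pool.Agent.Lib.NGE.Bic2
import Pool.Agent.Lib.NGE.EvN

/-!
# NGE / EvA: bicliques of `NG(q, s)` for even `q`, assembly

PROOF IN WORDS. `m = s - 1 ≥ 2`. `M = X^m - 1` is monic and coprime to `X`. `exists_irr M (a := X)` gives `E`; `q0 = 2^(E + m + 2)`. `card F` even: `F` is finite (`F` embeds in `K`), has characteristic 2 and `2^e` elements, `e ≥ E`. `P`, then `b, V` from `exists_V`; `β` = image of `b`. `A ⊆ V` with `a` elements, `B = (V \ A).image (· + β)` with `c = 2^m - a` elements,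
`norm_one` for `x ∈ A`, `y ∈ V \ A`; `x ≠ y + β` because `N (x - (y + β)) = 1 ≠ 0`. `2^m < card K` as `card K = q^m` and `q > 2`. `bic2`.
-/

set_option autoImplicit false

namespace Pool.Agent.Lib.NGE

open SimpleGraph Pool.Agent.Lib.MP_f4a4e4_co.NGX

/-- a finite field with an even number of elements -/
private theorem char_two {F : Type} [Field F] [Finite F] (h : Nat.card F % 2 = 0) :
    (2 : F) = 0 ∧ ∃ e : ℕ, Nat.card F = 2 ^ e := by
  have := Fintype.ofFinite F
  obtain ⟨p, hp, n, hpp, hn⟩ := FiniteField.card' F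
  rw [Nat.card_eq_fintype_card, hn] at h
  have h2 : p = 2 := by
    have h3 : 2 ∣ p ^ (n : ℕ) := Nat.dvd_of_mod_eq_zero h
    exact ((Nat.prime_dvd_prime_iff_eq Nat.prime_two hpp).1 (Nat.prime_two.dvd_of_dvd_pow h3)).symm
  subst h2
  refine ⟨?_, n, ?_⟩
  · have h4 := CharP.cast_eq_zero F 2
    simpa using h4
  · rw [Nat.card_eq_fintype_card, hn]

private theorem cop (m : ℕ) (hm : 1 ≤ m) :
    (Polynomial.X ^ m - 1 : Polynomial (ZMod 2)).Monic ∧
      IsCoprime (Polynomial.X : Polynomial (ZMod 2)) (Polynomial.X ^ m - 1) := by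
  refine ⟨?_, Polynomial.X ^ (m - 1), -1, ?_⟩
  · have h := Polynomial.monic_X_pow_sub_C (R := ZMod 2) 1 (n := m) (by omega)
    simpa using h
  · rw [← pow_succ, Nat.sub_add_cancel hm]
    ring

theorem even_all (s : ℕ) (hs : 3 ≤ s) : ∃ q0 : ℕ, ∀ (F K : Type) [Field F] [Field K] [Finite K] [Algebra F K],
    Module.finrank F K = s - 1 → Nat.card F % 2 = 0 → q0 ≤ Nat.card F →
      ∀ a c : ℕ, a + c = 2 ^ (s - 1) → completeBipartiteGraph (Fin a) (Fin (c + 1)) ⊑ NormGraph F K := by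
  classical
  obtain ⟨hM, hX⟩ := cop (s - 1) (by omega)
  obtain ⟨E, hE⟩ := exists_irr (Polynomial.X ^ (s - 1) - 1) hM hX Polynomial.X hX
  refine ⟨2 ^ E + 3, ?_⟩
  intro F K _ _ _ _ hK hev hq a c hac
  have hfin : Finite F := Finite.of_injective (algebraMap F K) (algebraMap F K).injective
  obtain ⟨h2F, e, he⟩ := char_two hev
  have h2 : (2 : K) = 0 := by
    have h3 := congrArg (algebraMap F K) h2F
    rwa [map_ofNat, map_zero] at h3
  have hEe : E ≤ e := by
    have h3 : 2 ^ E ≤ 2 ^ e := by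
      rw [← he]
      omega
    exact (Nat.pow_le_pow_iff_right (by norm_num)).1 h3
  obtain ⟨P, hP, hPm, hPe, hPM⟩ := hE e hEe
  obtain ⟨b, V, hV, hVy⟩ := exists_V (F := F) (K := K) (s - 1) e (by omega) hK he P hP hPm hPe hPM
  obtain ⟨A, hAV, hA⟩ := Finset.exists_subset_card_eq (s := V) (n := a) (by rw [hV]; omega)
  have hB : ((V \ A).map (addRightEmbedding (algebraMap F K b))).card = c := by
    rw [Finset.card_map, Finset.card_sdiff_of_subset hAV, hV, hA]
    omega
  have hcK : Nat.card K = Nat.card F ^ (s - 1) := by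
    have := Fintype.ofFinite F
    have := Fintype.ofFinite K
    rw [Nat.card_eq_fintype_card, Nat.card_eq_fintype_card, ← hK]
    exact Module.card_eq_pow_finrank
  have hnorm : ∀ x ∈ A, ∀ y ∈ (V \ A).map (addRightEmbedding (algebraMap F K b)),
      Algebra.norm F (x - y) = 1 := by
    intro x hx y hy
    obtain ⟨z, hz, rfl⟩ := Finset.mem_map.1 hy
    rw [Finset.mem_sdiff] at hz
    have hxz : x ≠ z := fun h => hz.2 (h ▸ hx)
    exact norm_one h2 b x z hxz (hVy x (hAV hx)) (hVy z hz.1)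
  have h := bic2 (F := F) (K := K) h2 A ((V \ A).map (addRightEmbedding (algebraMap F K b))) ?_ hnorm ?_
  · rw [hA, hB] at h
    exact h
  · intro x hx y hy hxy
    have h3 := hnorm x hx y hy
    rw [hxy, sub_self, Algebra.norm_zero] at h3
    exact zero_ne_one h3
  · rw [hA, hB, hac, hcK]
    exact Nat.pow_lt_pow_left (lt_of_lt_of_le (by norm_num) (le_trans (Nat.le_add_left 3 (2 ^ E)) hq)) (by omega)

end Pool.Agent.Lib.NGE
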