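import Mathlib

/-!
# NGE / Frb: Frobenius powers of a root of an irreducible polynomial over F_2

PROOF IN WORDS. If `b^(2^i) = b` then `P ∣ X^(2^i) - X` (`P` is up to a unit `minpoly`, `minpoly.dvd`), and an irreducible divisor of `X^(2^i) - X` over `F_2` has degree dividing `i` (Mathlib: `Irreducible.natDegree_dvd_of_dvd_X_pow_card_pow_sub_X` or a similar name, `FiniteField`), so `≤ i`. (Or: the elements with
`y^(2^i) = y` form a subfield with at most `2^i` elements containing `b`, so `2^(deg P) = card F_2(b) ≤ 2^i`.)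
-/

set_option autoImplicit false

namespace Pool.Agent.Lib.NGE

open Polynomial

theorem pow_ne {K : Type} [Field K] [Algebra (ZMod 2) K] (b : K) (P : (ZMod 2)[X]) (hP : Irreducible P)
    (hb : aeval b P = 0) (i : ℕ) (hi : 0 < i) (hiP : i < P.natDegree) : b ^ 2 ^ i ≠ b := by
  intro h
  have hmin : P ∣ (X ^ (Nat.card (ZMod 2)) ^ i - X : (ZMod 2)[X]) := by
    have hint : IsIntegral (ZMod 2) b := by
      refine ⟨P * C P.leadingCoeff⁻¹, monic_mul_leadingCoeff_inv hP.ne_zero, ?_⟩
      have : aeval b (P * C P.leadingCoeff⁻¹) = 0 := by rw [map_mul, hb, zero_mul]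
      exact this
    have h1 : minpoly (ZMod 2) b ∣ P := minpoly.dvd _ _ hb
    have h2 : minpoly (ZMod 2) b ∣ (X ^ (Nat.card (ZMod 2)) ^ i - X : (ZMod 2)[X]) := by
      refine minpoly.dvd _ _ ?_
      rw [map_sub, map_pow, aeval_X, Nat.card_zmod, h, sub_self]
    have h3 : Associated (minpoly (ZMod 2) b) P := (minpoly.irreducible hint).associated_of_dvd hP h1
    exact h3.symm.dvd.trans h2
  have h4 := hP.natDegree_dvd_of_dvd_X_pow_card_pow_sub_X hmin
  exact absurd (Nat.le_of_dvd hi h4) (by omega)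

end Pool.Agent.Lib.NGE
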