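import Pool.Agent.Lib.NGE.Newt

/-!
# NGE / Triv: the trivial bound

PROOF IN WORDS. `newton` with `h = 1`: `cc 1 n = 2^n` (`card_Mon`), `n 2^n = ∑_{j=1}^n SS 1 j 2^(n-j)`; by strong induction `SS 1 n = 2^n` for `n ≥ 1` (the terms `j < n` are `2^j 2^(n-j)`). `SS 1 n = ∑_{r ∣ n} r card (Irr r)`. `‖SS h n‖ ≤ ∑_{r ∣ n} ∑_P r ‖h P‖^(n/r) ≤ SS 1 n`.
-/

set_option autoImplicit false

namespace Pool.Agent.Lib.NGE

open Polynomial

private lemma cc_one (n : ℕ) : cc 1 n = 2 ^ n := by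
  have h := card_Mon n
  simp only [cc, MonoidHom.one_apply, Finset.sum_const, nsmul_eq_mul, mul_one, h]
  push_cast
  rfl

private lemma SS_one_eq (n : ℕ) : SS 1 n = ((∑ r ∈ n.divisors, r * (Irr r).card : ℕ) : ℂ) := by
  simp only [SS, MonoidHom.one_apply, one_pow, mul_one, Finset.sum_const, nsmul_eq_mul]
  push_cast
  exact Finset.sum_congr rfl fun r _ => mul_comm _ _

private lemma SS_one (n : ℕ) (hn : 1 ≤ n) : SS 1 n = 2 ^ n := by
  induction n using Nat.strong_induction_on with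
  | _ n ih =>
    have h := newton 1 n
    rw [cc_one] at h
    have h1 : Finset.Icc 1 n = insert n (Finset.Ico 1 n) := by
      ext x
      simp only [Finset.mem_Icc, Finset.mem_insert, Finset.mem_Ico]
      omega
    have h2 : n ∉ Finset.Ico 1 n := by simp
    rw [h1, Finset.sum_insert h2, Nat.sub_self, cc_one, pow_zero, mul_one] at h
    have h3 : ∑ j ∈ Finset.Ico 1 n, SS 1 j * cc 1 (n - j) = ((n : ℂ) - 1) * 2 ^ n := by
      have h4 : ∀ j ∈ Finset.Ico 1 n, SS 1 j * cc 1 (n - j) = (2 : ℂ) ^ n := by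
        intro j hj
        rw [Finset.mem_Ico] at hj
        rw [ih j hj.2 hj.1, cc_one, ← pow_add]
        congr 1
        omega
      rw [Finset.sum_congr rfl h4, Finset.sum_const, Nat.card_Ico, nsmul_eq_mul, Nat.cast_sub hn, Nat.cast_one]
    rw [h3] at h
    linear_combination -h

theorem irr_sum (n : ℕ) (hn : 1 ≤ n) : ∑ r ∈ n.divisors, r * (Irr r).card = 2 ^ n := by
  have h := SS_one n hn
  rw [SS_one_eq] at h
  exact_mod_cast h

theorem SS_le (h : (ZMod 2)[X] →* ℂ) (hh : ∀ f, ‖h f‖ ≤ 1) (n : ℕ) (hn : 1 ≤ n) : ‖SS h n‖ ≤ 2 ^ n := by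
  have h1 : ‖SS h n‖ ≤ ∑ r ∈ n.divisors, (r : ℝ) * (Irr r).card := by
    refine (norm_sum_le _ _).trans (Finset.sum_le_sum fun r _ => (norm_sum_le _ _).trans ?_)
    refine (Finset.sum_le_card_nsmul _ _ (r : ℝ) fun P _ => ?_).trans ?_
    · rw [norm_mul, norm_pow, Complex.norm_natCast]
      exact mul_le_of_le_one_right (Nat.cast_nonneg r) (pow_le_one₀ (norm_nonneg _) (hh P))
    · rw [nsmul_eq_mul, mul_comm]
  refine h1.trans (le_of_eq ?_)
  have h2 := irr_sum n hn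
  exact_mod_cast h2

end Pool.Agent.Lib.NGE
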