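import Pool.Agent.Lib.NGE.OrS
import Pool.Agent.Lib.NGE.Triv
import Pool.Agent.Lib.NGE.CcZ
import Pool.Agent.Lib.NGE.App

/-!
# NGE / KSum: at most one inverse zero of absolute value 2 in all

PROOF IN WORDS. `orth_SS` with `a = 1` (`hom M χ 1 = 1`): `∑_χ SS (hom M χ) e` is a real number `≥ 0`. `‖SS (hom M 1) e‖ ≤ 2^e` (`SS_le`, `norm_hom_le`). `approx` for all `χ ≠ 1` together (a subtype), `ρ = 2`, `ε` small (`ε * number of characters < 1`): for some `e`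
`0 ≤ 2^e - (∑_{χ≠1} k2 (A χ)) 2^e + ε (number) 2^e`, so `∑ k2 < 2`.
-/

set_option autoImplicit false

namespace Pool.Agent.Lib.NGE

open Polynomial

/-- the final estimate, for real functions on a finite set -/
private theorem final_aux {κ : Type} (T : Finset κ) (k : κ → ℕ) (f : κ → ℝ) (a P : ℝ) (hP : 0 < P) (ha : a ≤ P)
    (h0 : 0 ≤ a + -∑ χ ∈ T, f χ)
    (hf : ∀ χ ∈ T, ((k χ : ℝ) - 1 / (2 * ((T.card : ℝ) + 1))) * P ≤ f χ) :
    ∑ χ ∈ T, k χ ≤ 1 := by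
  have h2 : ∑ χ ∈ T, ((k χ : ℝ) - 1 / (2 * ((T.card : ℝ) + 1))) * P ≤ ∑ χ ∈ T, f χ :=
    Finset.sum_le_sum hf
  rw [← Finset.sum_mul, Finset.sum_sub_distrib, Finset.sum_const, nsmul_eq_mul] at h2
  have h3 : (∑ χ ∈ T, (k χ : ℝ)) - (T.card : ℝ) * (1 / (2 * ((T.card : ℝ) + 1))) ≤ 1 := by
    by_contra hcon
    push Not at hcon
    have := mul_lt_mul_of_pos_right hcon hP
    linarith
  have h4 : (T.card : ℝ) * (1 / (2 * ((T.card : ℝ) + 1))) < 1 := by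
    have hc : (0 : ℝ) ≤ (T.card : ℝ) := Nat.cast_nonneg _
    rw [mul_one_div, div_lt_one (by positivity)]
    linarith
  have h5 : ((∑ χ ∈ T, k χ : ℕ) : ℝ) < 2 := by
    rw [Nat.cast_sum]
    linarith
  have h6 : ∑ χ ∈ T, k χ < 2 := by exact_mod_cast h5
  omega

open Classical in
theorem sum_k_le (M : (ZMod 2)[X]) (hM : M.Monic) [Fintype (MulChar (AdjoinRoot M) ℂ)]
    (A : MulChar (AdjoinRoot M) ℂ → Multiset ℂ)
    (hA : ∀ χ, χ ≠ 1 → ∀ e : ℕ, 1 ≤ e → SS (hom M χ) e = -((A χ).map fun α => α ^ e).sum)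
    (hA2 : ∀ χ, χ ≠ 1 → ∀ α ∈ A χ, ‖α‖ ≤ 2) :
    ∑ χ ∈ Finset.univ.erase (1 : MulChar (AdjoinRoot M) ℂ), k2 (A χ) ≤ 1 := by
  classical
  set T := Finset.univ.erase (1 : MulChar (AdjoinRoot M) ℂ) with hT
  have hε : (0 : ℝ) < 1 / (2 * ((T.card : ℝ) + 1)) := by positivity
  obtain ⟨e, -, he1, happ⟩ := approx (ι := {χ : MulChar (AdjoinRoot M) ℂ // χ ≠ 1}) (fun χ => A χ.1) 2
    (by norm_num) (fun χ α hα => hA2 χ.1 χ.2 α hα) (1 / (2 * ((T.card : ℝ) + 1))) hε 1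
  have happ' : ∀ χ, χ ≠ 1 → ((k2 (A χ) : ℝ) - 1 / (2 * ((T.card : ℝ) + 1))) * 2 ^ e ≤
      (((A χ).map fun α => α ^ e).sum).re := by
    intro χ hχ
    have h := happ ⟨χ, hχ⟩
    have hk : ((A χ).filter fun α => ‖α‖ = 2).card = k2 (A χ) := by
      unfold k2
      congr
    have hcast : ((((A χ).filter fun α => ‖α‖ = 2).card : ℕ) : ℂ) * ((2 : ℝ) : ℂ) ^ e =
        (((k2 (A χ) : ℝ) * 2 ^ e : ℝ) : ℂ) := by
      rw [hk]
      push_cast
      rfl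
    have h1 : ‖((A χ).map fun α => α ^ e).sum - (((k2 (A χ) : ℝ) * 2 ^ e : ℝ) : ℂ)‖ ≤
        1 / (2 * ((T.card : ℝ) + 1)) * 2 ^ e := by
      rw [← hcast]
      convert h using 6
    have h2 := Complex.abs_re_le_norm (((A χ).map fun α => α ^ e).sum - (((k2 (A χ) : ℝ) * 2 ^ e : ℝ) : ℂ))
    rw [Complex.sub_re, Complex.ofReal_re] at h2
    have h3 := (abs_le.mp (h2.trans h1)).1
    linarith
  have horth := orth_SS M hM 1 isCoprime_one_left e
  have hsum : ∑ χ : MulChar (AdjoinRoot M) ℂ, (hom M χ 1)⁻¹ * SS (hom M χ) e =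
      SS (hom M 1) e + ∑ χ ∈ T, SS (hom M χ) e := by
    rw [hT, Finset.add_sum_erase _ (fun χ => SS (hom M χ) e) (Finset.mem_univ _)]
    refine Finset.sum_congr rfl fun χ _ => ?_
    rw [map_one, inv_one, one_mul]
  have hneg : ∑ χ ∈ T, SS (hom M χ) e = -∑ χ ∈ T, ((A χ).map fun α => α ^ e).sum := by
    rw [← Finset.sum_neg_distrib]
    refine Finset.sum_congr rfl fun χ hχ => ?_
    exact hA χ (Finset.ne_of_mem_erase hχ) e he1
  rw [hsum, hneg] at horth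
  have hre := congrArg Complex.re horth
  rw [Complex.add_re, Complex.neg_re, Complex.re_sum, Complex.natCast_re] at hre
  have h0 : (0 : ℝ) ≤ (SS (hom M 1) e).re + -∑ χ ∈ T, (((A χ).map fun α => α ^ e).sum).re := by
    rw [hre]
    exact Nat.cast_nonneg _
  have h1 : (SS (hom M 1) e).re ≤ 2 ^ e :=
    (Complex.re_le_norm _).trans (SS_le (hom M 1) (norm_hom_le M hM 1) e he1)
  exact final_aux T (fun χ => k2 (A χ)) (fun χ => (((A χ).map fun α => α ^ e).sum).re) _ (2 ^ e)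
    (by positivity) h1 h0 fun χ hχ => happ' χ (Finset.ne_of_mem_erase hχ)

end Pool.Agent.Lib.NGE
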