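import Mathlib

/-!
# NGE / PwB: Newton identities for a product

PROOF IN WORDS. Induction on `A`. `L' = (1 - C α X) L`, `c' n = c n - α c (n-1)` (`c' 0 = c 0`). By induction `n c n = -∑_{j=1}^n p_j c (n-j)`. Then `n c' n = n c n - α (n-1) c(n-1) - α c(n-1) = -∑_{j=1}^n p_j c(n-j) + α ∑_{j=1}^{n-1} p_j c(n-1-j) - α c(n-1) = -∑_{j=1}^n p_j c'(n-j) - α c(n-1)`, and
`∑_{j=1}^n α^j c'(n-j) = α c(n-1)` (telescoping), so `n c' n = -∑_{j=1}^n (p_j + α^j) c'(n-j)`.
-/

set_option autoImplicit false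

namespace Pool.Agent.Lib.NGE

open Polynomial

private theorem nwp_Icc (f : ℕ → ℂ) (n : ℕ) : ∑ j ∈ Finset.Icc 1 n, f j = ∑ j ∈ Finset.range n, f (j + 1) := by
  rw [← Finset.Ico_add_one_right_eq_Icc, Finset.sum_Ico_eq_sum_range]
  simp only [Nat.add_sub_cancel]
  exact Finset.sum_congr rfl fun j _ => by rw [Nat.add_comm]

private theorem nwp_tel (α : ℂ) (c c' : ℕ → ℂ) (h0 : c' 0 = c 0) (h1 : ∀ n, c' (n + 1) = c (n + 1) - α * c n) (n : ℕ) :
    ∑ j ∈ Finset.range (n + 1), α ^ (j + 1) * c' (n - j) = α * c n := by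
  induction n with
  | zero => simp [h0]
  | succ n ih =>
    rw [Finset.sum_range_succ']
    have e : ∑ k ∈ Finset.range (n + 1), α ^ (k + 1 + 1) * c' (n + 1 - (k + 1)) =
        α * ∑ j ∈ Finset.range (n + 1), α ^ (j + 1) * c' (n - j) := by
      rw [Finset.mul_sum]
      refine Finset.sum_congr rfl fun k _ => ?_
      rw [Nat.add_sub_add_right]
      ring
    rw [e, ih, Nat.sub_zero, h1]
    ring

private theorem nwp_q (α : ℂ) (c c' p : ℕ → ℂ) (h0 : c' 0 = c 0) (h1 : ∀ n, c' (n + 1) = c (n + 1) - α * c n) (m : ℕ) :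
    ∑ j ∈ Finset.range (m + 2), p (j + 1) * c' (m + 1 - j) =
      ∑ j ∈ Finset.range (m + 2), p (j + 1) * c (m + 1 - j) - α * ∑ j ∈ Finset.range (m + 1), p (j + 1) * c (m - j) := by
  rw [Finset.sum_range_succ, Finset.sum_range_succ (n := m + 1), Finset.mul_sum, Nat.sub_self, h0]
  have e : ∑ j ∈ Finset.range (m + 1), p (j + 1) * c' (m + 1 - j) =
      ∑ j ∈ Finset.range (m + 1), p (j + 1) * c (m + 1 - j) - ∑ j ∈ Finset.range (m + 1), α * (p (j + 1) * c (m - j)) := by
    rw [← Finset.sum_sub_distrib]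
    refine Finset.sum_congr rfl fun j hj => ?_
    have hj' : j ≤ m := Nat.lt_succ_iff.1 (Finset.mem_range.1 hj)
    rw [Nat.succ_sub hj', h1]
    ring
  rw [e]
  ring

private theorem nwp_step (α : ℂ) (c c' p : ℕ → ℂ) (h0 : c' 0 = c 0) (h1 : ∀ n, c' (n + 1) = c (n + 1) - α * c n)
    (ih : ∀ n : ℕ, ((n + 1 : ℕ) : ℂ) * c (n + 1) = -∑ j ∈ Finset.range (n + 1), p (j + 1) * c (n - j)) (n : ℕ) :
    ((n + 1 : ℕ) : ℂ) * c' (n + 1) = -∑ j ∈ Finset.range (n + 1), (α ^ (j + 1) + p (j + 1)) * c' (n - j) := by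
  have e : ∑ j ∈ Finset.range (n + 1), (α ^ (j + 1) + p (j + 1)) * c' (n - j) =
      α * c n + ∑ j ∈ Finset.range (n + 1), p (j + 1) * c' (n - j) := by
    rw [← nwp_tel α c c' h0 h1 n, ← Finset.sum_add_distrib]
    exact Finset.sum_congr rfl fun j _ => by ring
  rw [e]
  cases n with
  | zero =>
    have h := ih 0
    simp only [Nat.zero_add, Nat.cast_one, one_mul, Finset.sum_range_one, Nat.sub_zero] at h ⊢
    rw [show c' 1 = c 1 - α * c 0 from h1 0, h, h0]
    ring
  | succ m =>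
    have h := ih (m + 1)
    have h' := ih m
    rw [nwp_q α c c' p h0 h1 m, h1 (m + 1)]
    push_cast at h h' ⊢
    linear_combination h - α * h'

private theorem nwp_main (A : Multiset ℂ) : ∀ n : ℕ,
    ((n + 1 : ℕ) : ℂ) * ((A.map fun α => 1 - C α * X).prod : ℂ[X]).coeff (n + 1) =
      -∑ j ∈ Finset.range (n + 1), (A.map fun α => α ^ (j + 1)).sum *
        ((A.map fun α => 1 - C α * X).prod : ℂ[X]).coeff (n - j) := by
  induction A using Multiset.induction with
  | empty =>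
    intro n
    simp only [Multiset.map_zero, Multiset.prod_zero, Multiset.sum_zero, zero_mul, Finset.sum_const_zero, neg_zero,
      coeff_one]
    simp
  | cons α A ih =>
    intro n
    simp only [Multiset.map_cons, Multiset.prod_cons, Multiset.sum_cons]
    refine nwp_step α (fun k => ((A.map fun α => 1 - C α * X).prod : ℂ[X]).coeff k)
      (fun k => ((1 - C α * X) * (A.map fun α => 1 - C α * X).prod : ℂ[X]).coeff k)
      (fun k => (A.map fun α => α ^ k).sum) ?_ ?_ ih n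
    · simp [sub_mul, mul_assoc]
    · intro k
      simp [sub_mul, mul_assoc]

theorem newton_prod (A : Multiset ℂ) (n : ℕ) :
    (n : ℂ) * ((A.map fun α => 1 - C α * X).prod : ℂ[X]).coeff n =
      -∑ j ∈ Finset.Icc 1 n, (A.map fun α => α ^ j).sum * ((A.map fun α => 1 - C α * X).prod : ℂ[X]).coeff (n - j) := by
  rw [nwp_Icc]
  cases n with
  | zero => simp
  | succ n =>
    rw [nwp_main A n]
    refine congrArg Neg.neg (Finset.sum_congr rfl fun j _ => ?_)
    rw [Nat.add_sub_add_right]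

end Pool.Agent.Lib.NGE
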