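import Pool.Agent.Lib.NGE.PwA
import Pool.Agent.Lib.NGE.PwB

/-!
# NGE / Pow: power sums from the Newton identities

PROOF IN WORDS. `c 0 = 1` and `c n = 0` for `n ≥ m` (so `m ≥ 1`). `L = ∑_{n<m} C (c n) X^n` has `coeff n = c n` for all `n`; `exists_prod` gives `A`, evaluation at `u` the product formula. By `newton_prod` the sequence `-p_e` satisfies the same recursion `n c n = ∑_{j=1}^n S j c(n-j)`; the term `j = n` is `S n * c 0 = S n`, so `S e = -p_e` by strong induction.
-/

set_option autoImplicit false

namespace Pool.Agent.Lib.NGE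

open Polynomial

theorem power_sums (c S : ℕ → ℂ) (m : ℕ) (h0 : c 0 = 1) (hc : ∀ n, m ≤ n → c n = 0)
    (hN : ∀ n : ℕ, (n : ℂ) * c n = ∑ j ∈ Finset.Icc 1 n, S j * c (n - j)) :
    ∃ A : Multiset ℂ, (∀ e : ℕ, 1 ≤ e → S e = -(A.map fun α => α ^ e).sum) ∧
      ∀ u : ℂ, ∑ n ∈ Finset.range m, c n * u ^ n = (A.map fun α => 1 - α * u).prod := by
  classical
  set L : ℂ[X] := ∑ n ∈ Finset.range m, C (c n) * X ^ n with hL
  have hco : ∀ n, L.coeff n = c n := by
    intro n
    rw [hL, finsetSum_coeff]
    simp only [coeff_C_mul_X_pow]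
    rw [Finset.sum_ite_eq]
    split_ifs with h
    · rfl
    · rw [Finset.mem_range, not_lt] at h
      exact (hc n h).symm
  obtain ⟨A, hA⟩ := exists_prod L (by rw [hco, h0])
  refine ⟨A, ?_, ?_⟩
  · have hP : ∀ n : ℕ, (n : ℂ) * c n = -∑ j ∈ Finset.Icc 1 n, (A.map fun α => α ^ j).sum * c (n - j) := by
      intro n
      have := newton_prod A n
      rw [← hA] at this
      simpa only [hco] using this
    intro e
    induction e using Nat.strong_induction_on with
    | _ e ih =>
      intro he
      have h1 := hN e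
      have h2 := hP e
      rw [← Finset.sum_neg_distrib] at h2
      have h3 := h1.symm.trans h2
      have hs : Finset.Icc 1 e = insert e (Finset.Ico 1 e) := by
        ext j
        simp only [Finset.mem_Icc, Finset.mem_insert, Finset.mem_Ico]
        omega
      rw [hs, Finset.sum_insert (by simp), Finset.sum_insert (by simp), Nat.sub_self, h0, mul_one, mul_one] at h3
      have h4 : ∑ j ∈ Finset.Ico 1 e, S j * c (e - j) =
          ∑ j ∈ Finset.Ico 1 e, -((A.map fun α => α ^ j).sum * c (e - j)) := by
        refine Finset.sum_congr rfl fun j hj => ?_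
        rw [Finset.mem_Ico] at hj
        rw [ih j hj.2 hj.1, neg_mul]
      rw [h4] at h3
      exact add_right_cancel h3
  · intro u
    have h1 : L.eval u = ∑ n ∈ Finset.range m, c n * u ^ n := by
      rw [hL, eval_finsetSum]
      simp
    rw [← h1, hA, eval_multiset_prod, Multiset.map_map]
    congr 1
    refine Multiset.map_congr rfl fun α _ => ?_
    simp

end Pool.Agent.Lib.NGE
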