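import Pool.Agent.Lib.NGE.Defs
import Pool.Agent.Lib.NGE.Sm

/-!
# NGE / ReZ: real power sums and one element of absolute value 2

PROOF IN WORDS. `A = α0 ::ₘ A'` with `‖α0‖ = 2`, all others of absolute value `< 2`. `z = α0/2`, `‖z‖ = 1`; `Im (z^e) = -Im ∑_{A'} (α/2)^e → 0` (`small`, `ρ = 2`). `Im z^(e+1) = Re z^e Im z + Im z^e Re z` and `(Re z^e)^2 = 1 - (Im z^e)^2 → 1`, so `Im z = 0`, `z = ±1`.
-/

set_option autoImplicit false

namespace Pool.Agent.Lib.NGE

private theorem rz_split (A : Multiset ℂ) (hA : ∀ α ∈ A, ‖α‖ ≤ 2) (hk : k2 A = 1) :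
    ∃ (a : ℂ) (B : Multiset ℂ), A = a ::ₘ B ∧ ‖a‖ = 2 ∧ ∀ α ∈ B, ‖α‖ < 2 := by
  classical
  have hk' : (A.filter fun α => ‖α‖ = 2).card = 1 := by
    refine Eq.trans ?_ hk
    unfold k2
    congr!
  obtain ⟨a, ha⟩ := Multiset.card_eq_one.1 hk'
  have ha' : a ∈ A.filter fun α => ‖α‖ = 2 := by
    rw [ha]
    exact Multiset.mem_singleton_self a
  obtain ⟨haA, ha2⟩ := Multiset.mem_filter.1 ha'
  obtain ⟨B, hB⟩ := Multiset.exists_cons_of_mem haA
  refine ⟨a, B, hB, ha2, fun α hα => lt_of_le_of_ne (hA α (by rw [hB]; exact Multiset.mem_cons_of_mem hα)) fun h => ?_⟩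
  rw [hB, Multiset.filter_cons_of_pos (p := fun α : ℂ => ‖α‖ = 2) B ha2] at ha
  have h0 : (B.filter fun α => ‖α‖ = 2) = 0 := by
    have h1 := congrArg Multiset.card ha
    rw [Multiset.card_cons, Multiset.card_singleton] at h1
    exact Multiset.card_eq_zero.1 (Nat.succ.inj h1)
  have h2 : α ∈ B.filter fun α => ‖α‖ = 2 := Multiset.mem_filter.2 ⟨hα, h⟩
  rw [h0] at h2
  exact Multiset.notMem_zero α h2

private theorem rz_im (z : ℂ) (hz : ‖z‖ = 1) (h : ∀ δ : ℝ, 0 < δ → ∃ E : ℕ, ∀ e : ℕ, E ≤ e → |(z ^ e).im| ≤ δ) :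
    z.im = 0 := by
  by_contra hy
  have hy' : 0 < |z.im| := abs_pos.2 hy
  obtain ⟨E, hE⟩ := h (|z.im| / 4) (by positivity)
  have h1 := hE E le_rfl
  have h2 := hE (E + 1) (Nat.le_succ E)
  have hn : ∀ w : ℂ, ‖w‖ = 1 → w.re ^ 2 + w.im ^ 2 = 1 := by
    intro w hw
    have h3 := Complex.normSq_eq_norm_sq w
    rw [hw, Complex.normSq_apply] at h3
    linarith [h3]
  have h3 := hn z hz
  have h4 := hn (z ^ E) (by rw [norm_pow, hz, one_pow])
  have h5 : (z ^ (E + 1)).im = (z ^ E).re * z.im + (z ^ E).im * z.re := by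
    rw [pow_succ, Complex.mul_im]
  have hx : |z.re| ≤ 1 := abs_le_one_iff_mul_self_le_one.2 (by nlinarith [sq_nonneg z.im])
  have hy1 : |z.im| ≤ 1 := abs_le_one_iff_mul_self_le_one.2 (by nlinarith [sq_nonneg z.re])
  have h6 : |(z ^ E).re * z.im| ≤ |z.im| / 2 := by
    have h7 : (z ^ E).re * z.im = (z ^ (E + 1)).im - (z ^ E).im * z.re := by rw [h5]; ring
    rw [h7]
    have h8 : |(z ^ E).im * z.re| ≤ |z.im| / 4 := by
      rw [abs_mul]
      calc |(z ^ E).im| * |z.re| ≤ |z.im| / 4 * 1 := mul_le_mul h1 hx (abs_nonneg _) (by positivity)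
        _ = |z.im| / 4 := mul_one _
    calc |(z ^ (E + 1)).im - (z ^ E).im * z.re| ≤ |(z ^ (E + 1)).im| + |(z ^ E).im * z.re| := abs_sub _ _
      _ ≤ |z.im| / 4 + |z.im| / 4 := add_le_add h2 h8
      _ = |z.im| / 2 := by ring
  rw [abs_mul] at h6
  have h9 : |(z ^ E).re| ≤ 1 / 2 := by
    by_contra hc
    push Not at hc
    nlinarith [mul_pos (sub_pos.2 hc) hy']
  have h10 : (z ^ E).re ^ 2 ≤ 1 / 4 := by
    rw [← sq_abs]
    nlinarith [abs_nonneg (z ^ E).re]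
  have h11 : (z ^ E).im ^ 2 ≤ 1 / 16 := by
    rw [← sq_abs]
    nlinarith [abs_nonneg (z ^ E).im]
  linarith

theorem real_zero (A : Multiset ℂ) (hA : ∀ α ∈ A, ‖α‖ ≤ 2) (hk : k2 A = 1)
    (h : ∀ e : ℕ, 1 ≤ e → (A.map fun α => α ^ e).sum.im = 0) : (2 : ℂ) ∈ A ∨ (-2 : ℂ) ∈ A := by
  obtain ⟨a, B, hB, ha, hlt⟩ := rz_split A hA hk
  have ha0 : a = 2 * (a / 2) := by ring
  have hz : ‖a / 2‖ = 1 := by
    rw [norm_div, ha]
    norm_num
  have him : (a / 2).im = 0 := by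
    refine rz_im (a / 2) hz fun δ hδ => ?_
    obtain ⟨E, hE⟩ := small (ι := Unit) (fun _ => B) 2 (by norm_num) (fun _ => hlt) δ hδ
    refine ⟨max E 1, fun e he => ?_⟩
    have h1 := hE e ((le_max_left _ _).trans he) ()
    have h2 := h e ((le_max_right _ _).trans he)
    rw [hB, Multiset.map_cons, Multiset.sum_cons, Complex.add_im] at h2
    have h3 : (a ^ e).im = 2 ^ e * ((a / 2) ^ e).im := by
      have h4 : a ^ e = ((2 ^ e : ℝ) : ℂ) * (a / 2) ^ e := by
        push_cast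
        rw [← mul_pow, ← ha0]
      rw [h4, Complex.im_ofReal_mul]
    have h5 : |(B.map fun α => α ^ e).sum.im| ≤ δ * 2 ^ e := (Complex.abs_im_le_norm _).trans h1
    have h6 : 2 ^ e * ((a / 2) ^ e).im = -(B.map fun α => α ^ e).sum.im := by linarith
    have h7 : |2 ^ e * ((a / 2) ^ e).im| ≤ δ * 2 ^ e := by rw [h6, abs_neg]; exact h5
    rw [abs_mul, abs_of_pos (by positivity : (0 : ℝ) < 2 ^ e), mul_comm δ] at h7
    exact le_of_mul_le_mul_left h7 (by positivity)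
  have hre : (a / 2).re = 1 ∨ (a / 2).re = -1 := by
    have h3 := Complex.normSq_eq_norm_sq (a / 2)
    rw [hz, Complex.normSq_apply, him] at h3
    have h4 : ((a / 2).re - 1) * ((a / 2).re + 1) = 0 := by nlinarith
    rcases mul_eq_zero.1 h4 with h5 | h5
    · exact Or.inl (by linarith)
    · exact Or.inr (by linarith)
  have hmem : a ∈ A := by
    rw [hB]
    exact Multiset.mem_cons_self a B
  rcases hre with hre | hre
  · left
    have h8 : a / 2 = 1 := Complex.ext (by simpa using hre) (by simpa using him)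
    have h9 : a = 2 := by rw [ha0, h8, mul_one]
    rw [← h9]
    exact hmem
  · right
    have h8 : a / 2 = -1 := Complex.ext (by simpa using hre) (by simpa using him)
    have h9 : a = -2 := by rw [ha0, h8]; ring
    rw [← h9]
    exact hmem

end Pool.Agent.Lib.NGE
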