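import Pool.Agent.Lib.NGE.MonL

/-!
# NGE / Rea: divisor sums are nonnegative

PROOF IN WORDS. `t(f)` = sum of `g d` over the monic divisors `d` of `f` (`deg d ≤ n`). `t` is multiplicative on coprime arguments, and `t(P^k) = 1 + x + ... + x^k ≥ 0` for `x = g P ∈ {-1, 0, 1}`; `UniqueFactorizationMonoid.induction_on_coprime`. `t(X^(2k)) = ∑_{i ≤ 2k} x^i` (divisors of `X^(2k)` are the `X^i`), `x = g X = ±1`: `2k+1` or `1`.
(Other way for the first: `f = P^k f'` with `P` not dividing `f'`, strong induction on the degree; the divisors of `f` are the `P^i d'`, `i ≤ k`, `d' ∣ f'`, each once.)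
-/

set_option autoImplicit false

namespace Pool.Agent.Lib.NGE

open Polynomial

private theorem eq_one_of_ne_zero2 (a : ZMod 2) (h : a ≠ 0) : a = 1 := by
  revert a
  decide

private theorem eq_one_of_isUnit2 (u : (ZMod 2)[X]) (h : IsUnit u) : u = 1 := by
  obtain ⟨r, hr, rfl⟩ := Polynomial.isUnit_iff.mp h
  rw [eq_one_of_ne_zero2 r hr.ne_zero, Polynomial.C_1]

private theorem eq_of_assoc2 (a b : (ZMod 2)[X]) (h : Associated a b) : a = b := by
  obtain ⟨u, rfl⟩ := h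
  rw [eq_one_of_isUnit2 (u : (ZMod 2)[X]) u.isUnit, mul_one]

private theorem geom_nonneg2 (x : ℤ) (hx : x = 1 ∨ x = -1 ∨ x = 0) (i : ℕ) :
    0 ≤ ∑ j ∈ Finset.range (i + 1), x ^ j := by
  rcases hx with rfl | rfl | rfl
  · exact Finset.sum_nonneg (fun j _ => by simp)
  · have h : ∀ m : ℕ, (∑ j ∈ Finset.range m, (-1 : ℤ) ^ j = 0 ∨ ∑ j ∈ Finset.range m, (-1 : ℤ) ^ j = 1) := by
      intro m
      rw [neg_one_geom_sum]
      split_ifs
      · left; rfl
      · right; rfl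
    rcases h (i + 1) with h | h
    · rw [h]
    · rw [h]
      norm_num
  · exact Finset.sum_nonneg (fun j _ => pow_nonneg (le_refl _) j)

private theorem unit_case (g : (ZMod 2)[X] →* ℤ) (x : (ZMod 2)[X]) (hx : IsUnit x) (S : Finset ((ZMod 2)[X]))
    (hS : ∀ d, d ∈ S ↔ d ∣ x) : 0 ≤ ∑ d ∈ S, g d := by
  refine Finset.sum_nonneg ?_
  intro d hd
  have h1 : IsUnit d := isUnit_of_dvd_unit ((hS d).mp hd) hx
  rw [eq_one_of_isUnit2 d h1, map_one]
  norm_num

open Classical in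
private theorem pow_case (g : (ZMod 2)[X] →* ℤ) (hg : ∀ f, g f = 1 ∨ g f = -1 ∨ g f = 0) (p : (ZMod 2)[X]) (i : ℕ)
    (hp : Prime p) (S : Finset ((ZMod 2)[X])) (hS : ∀ d, d ∈ S ↔ d ∣ p ^ i) : 0 ≤ ∑ d ∈ S, g d := by
  have hinj : Function.Injective (fun j : ℕ => p ^ j) := pow_injective_of_not_isUnit hp.not_isUnit hp.ne_zero
  have hSe : S = (Finset.range (i + 1)).image (fun j : ℕ => p ^ j) := by
    ext d
    rw [hS d, dvd_prime_pow hp, Finset.mem_image]
    constructor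
    · rintro ⟨j, hj, hd⟩
      exact ⟨j, Finset.mem_range.mpr (by omega), (eq_of_assoc2 _ _ hd).symm⟩
    · rintro ⟨j, hj, hd⟩
      have hj' := Finset.mem_range.mp hj
      refine ⟨j, by omega, ?_⟩
      rw [← hd]
      exact Associated.refl (p ^ j)
  rw [hSe, Finset.sum_image (fun a _ b _ h => hinj h)]
  have h2 : ∑ j ∈ Finset.range (i + 1), g (p ^ j) = ∑ j ∈ Finset.range (i + 1), (g p) ^ j :=
    Finset.sum_congr rfl (fun j _ => map_pow g p j)
  rw [h2]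
  exact geom_nonneg2 (g p) (hg p) i

open Classical in
private theorem mul_case (g : (ZMod 2)[X] →* ℤ) (x y : (ZMod 2)[X]) (hxy : IsRelPrime x y) (hxy0 : x * y ≠ 0)
    (hx : ∀ S : Finset ((ZMod 2)[X]), (∀ d, d ∈ S ↔ d ∣ x) → 0 ≤ ∑ d ∈ S, g d)
    (hy : ∀ S : Finset ((ZMod 2)[X]), (∀ d, d ∈ S ↔ d ∣ y) → 0 ≤ ∑ d ∈ S, g d)
    (S : Finset ((ZMod 2)[X])) (hS : ∀ d, d ∈ S ↔ d ∣ x * y) : 0 ≤ ∑ d ∈ S, g d := by
  have hA : ∀ d, d ∈ S.filter (fun d => d ∣ x) ↔ d ∣ x := by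
    intro d
    rw [Finset.mem_filter, hS d]
    exact ⟨fun h => h.2, fun h => ⟨dvd_mul_of_dvd_left h y, h⟩⟩
  have hB : ∀ d, d ∈ S.filter (fun d => d ∣ y) ↔ d ∣ y := by
    intro d
    rw [Finset.mem_filter, hS d]
    exact ⟨fun h => h.2, fun h => ⟨dvd_mul_of_dvd_right h x, h⟩⟩
  have hinj : Set.InjOn (fun q : (ZMod 2)[X] × (ZMod 2)[X] => q.1 * q.2)
      ((S.filter (fun d => d ∣ x) ×ˢ S.filter (fun d => d ∣ y) : Finset ((ZMod 2)[X] × (ZMod 2)[X])) : Set ((ZMod 2)[X] × (ZMod 2)[X])) := by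
    rintro ⟨a, b⟩ hab ⟨a', b'⟩ hab' he
    have hab1 := Finset.mem_product.mp (Finset.mem_coe.mp hab)
    have hab1' := Finset.mem_product.mp (Finset.mem_coe.mp hab')
    have ha : a ∣ x := (hA a).mp hab1.1
    have hb : b ∣ y := (hB b).mp hab1.2
    have ha' : a' ∣ x := (hA a').mp hab1'.1
    have hb' : b' ∣ y := (hB b').mp hab1'.2
    have he' : a * b = a' * b' := he
    have h1 : IsRelPrime a b' := (hxy.of_dvd_left ha).of_dvd_right hb'
    have h2 : IsRelPrime a' b := (hxy.of_dvd_left ha').of_dvd_right hb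
    have h3 : a ∣ a' := h1.dvd_of_dvd_mul_right (by rw [← he']; exact dvd_mul_right a b)
    have h4 : a' ∣ a := h2.dvd_of_dvd_mul_right (by rw [he']; exact dvd_mul_right a' b')
    have h5 : a = a' := eq_of_assoc2 _ _ (associated_of_dvd_dvd h3 h4)
    subst h5
    have ha0 : a ≠ 0 := by
      rintro rfl
      exact hxy0 (by rw [zero_dvd_iff.mp ha, zero_mul])
    have h6 : b = b' := mul_left_cancel₀ ha0 he'
    rw [h6]
  have hSe : S = (S.filter (fun d => d ∣ x) ×ˢ S.filter (fun d => d ∣ y)).image (fun q : (ZMod 2)[X] × (ZMod 2)[X] => q.1 * q.2) := by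
    ext d
    rw [Finset.mem_image]
    constructor
    · intro hd
      obtain ⟨a, b, ha, hb, hab⟩ := exists_dvd_and_dvd_of_dvd_mul ((hS d).mp hd)
      exact ⟨(a, b), Finset.mem_product.mpr ⟨(hA a).mpr ha, (hB b).mpr hb⟩, hab.symm⟩
    · rintro ⟨⟨a, b⟩, hab, hd⟩
      have hab1 := Finset.mem_product.mp hab
      have ha : a ∣ x := (hA a).mp hab1.1
      have hb : b ∣ y := (hB b).mp hab1.2
      rw [hS d, ← hd]
      exact mul_dvd_mul ha hb
  have hsum : ∑ d ∈ S, g d = (∑ a ∈ S.filter (fun d => d ∣ x), g a) * (∑ b ∈ S.filter (fun d => d ∣ y), g b) := by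
    rw [Finset.sum_mul_sum, ← Finset.sum_product']
    conv_lhs => rw [hSe]
    rw [Finset.sum_image hinj]
    exact Finset.sum_congr rfl (fun q _ => map_mul g q.1 q.2)
  rw [hsum]
  exact mul_nonneg (hx _ hA) (hy _ hB)

private theorem all_case (g : (ZMod 2)[X] →* ℤ) (hg : ∀ f, g f = 1 ∨ g f = -1 ∨ g f = 0) (f : (ZMod 2)[X]) :
    f ≠ 0 → ∀ S : Finset ((ZMod 2)[X]), (∀ d, d ∈ S ↔ d ∣ f) → 0 ≤ ∑ d ∈ S, g d := by
  refine UniqueFactorizationMonoid.induction_on_coprime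
    (P := fun f => f ≠ 0 → ∀ S : Finset ((ZMod 2)[X]), (∀ d, d ∈ S ↔ d ∣ f) → 0 ≤ ∑ d ∈ S, g d) f ?_ ?_ ?_ ?_
  · intro h
    exact absurd rfl h
  · intro x hx _ S hS
    exact unit_case g x hx S hS
  · intro p i hp _ S hS
    exact pow_case g hg p i hp S hS
  · intro x y hxy hx hy h0 S hS
    have hx0 : x ≠ 0 := left_ne_zero_of_mul h0
    have hy0 : y ≠ 0 := right_ne_zero_of_mul h0
    exact mul_case g x y hxy h0 (hx hx0) (hy hy0) S hS

open Classical in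
theorem t_nonneg (g : (ZMod 2)[X] →* ℤ) (hg : ∀ f, g f = 1 ∨ g f = -1 ∨ g f = 0) (n : ℕ) (f : (ZMod 2)[X]) (hf : f ∈ Mon n) :
    0 ≤ ∑ j ∈ Finset.range (n + 1), ∑ d ∈ (Mon j).filter (fun d => d ∣ f), g d := by
  obtain ⟨hfm, hfn⟩ := (mem_Mon n f).mp hf
  have hf0 : f ≠ 0 := hfm.ne_zero
  have hdisj : Set.PairwiseDisjoint (↑(Finset.range (n + 1)) : Set ℕ) (fun j => (Mon j).filter (fun d => d ∣ f)) := by
    intro a _ b _ hab
    refine Finset.disjoint_left.mpr ?_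
    intro d hda hdb
    have h1 := ((mem_Mon a d).mp (Finset.mem_filter.mp hda).1).2
    have h2 := ((mem_Mon b d).mp (Finset.mem_filter.mp hdb).1).2
    exact hab (h1.symm.trans h2)
  rw [← Finset.sum_biUnion hdisj]
  refine all_case g hg f hf0 _ ?_
  intro d
  rw [Finset.mem_biUnion]
  constructor
  · rintro ⟨j, _, hj⟩
    exact (Finset.mem_filter.mp hj).2
  · intro hd
    have hd0 : d ≠ 0 := ne_zero_of_dvd_ne_zero hf0 hd
    have hdm : d.Monic := eq_one_of_ne_zero2 _ (Polynomial.leadingCoeff_ne_zero.mpr hd0)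
    have hdn : d.natDegree ≤ n := by
      rw [← hfn]
      exact Polynomial.natDegree_le_of_dvd hd hf0
    exact ⟨d.natDegree, Finset.mem_range.mpr (by omega), Finset.mem_filter.mpr ⟨(mem_Mon _ d).mpr ⟨hdm, rfl⟩, hd⟩⟩

end Pool.Agent.Lib.NGE
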