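import Pool.Agent.Lib.NGE.KSum
import Pool.Agent.Lib.NGE.Real
import Pool.Agent.Lib.NGE.Pow
import Pool.Agent.Lib.NGE.Bd2
import Pool.Agent.Lib.NGE.KCo
import Pool.Agent.Lib.NGE.ReZ
import Pool.Agent.Lib.NGE.Cj

/-!
# NGE / Lt2: all inverse zeros have absolute value `< 2`

PROOF IN WORDS. For `ψ ≠ 1` take `A ψ` from `power_sums` (`c = cc (hom M ψ)`, `cc _ 0 = 1` as `Mon 0 = {1}`, `cc_zero`, `newton`, with the product formula); `‖α‖ ≤ 2` by `abs_le_two`, `SS_le`, `norm_hom_le`. `sum_k_le`. If `k2 (A χ) = 0` all `‖α‖ < 2`. Otherwise `k2 (A χ) = 1`; `ψ` = conjugate of `χ`, `ψ ≠ 1` (`conj_ne_one`), `k2 (A ψ) = 1` (`SS_conj`, `k2_conj`),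
so `ψ = χ` (the sum over the characters is `≤ 1`). `real_vals`; `SS (hom M χ) e` is real (`SS_conj`), `real_zero`: `2 ε ∈ A χ`, `ε = ±1`; a factor of `∏ (1 - α u)` is `0` at `u = ε/2`, so `∑_{n<m} cc n (ε/2)^n = 0`, against `no_real` (`hom M χ X ≠ 0`: `mk M X` is a unit, `IsCoprime X M`).
-/

set_option autoImplicit false

namespace Pool.Agent.Lib.NGE

open Polynomial

private theorem cc_at_zero (h : (ZMod 2)[X] →* ℂ) : cc h 0 = 1 := by
  have hM : Mon 0 = {1} := by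
    ext f
    rw [mem_Mon, Finset.mem_singleton]
    constructor
    · rintro ⟨h1, h2⟩
      exact (Polynomial.Monic.natDegree_eq_zero h1).1 h2
    · rintro rfl
      exact ⟨monic_one, natDegree_one⟩
  rw [cc, hM, Finset.sum_singleton, map_one]

private theorem hom_X_ne (M : (ZMod 2)[X]) (hX : IsCoprime X M) (χ : MulChar (AdjoinRoot M) ℂ) :
    hom M χ X ≠ 0 := by
  obtain ⟨a, b, hab⟩ := hX
  have h1 : AdjoinRoot.mk M a * AdjoinRoot.mk M X = 1 := by
    have h2 := congrArg (AdjoinRoot.mk M) hab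
    rw [map_add, map_mul, map_mul, AdjoinRoot.mk_self, mul_zero, add_zero, map_one] at h2
    exact h2
  have hu : IsUnit (AdjoinRoot.mk M X) := IsUnit.of_mul_eq_one _ (by rw [mul_comm]; exact h1)
  exact (hu.map χ).ne_zero

theorem abs_lt_two (M : (ZMod 2)[X]) (hM : M.Monic) (hX : IsCoprime X M) (χ : MulChar (AdjoinRoot M) ℂ) (hχ : χ ≠ 1) :
    ∃ A : Multiset ℂ, (∀ e : ℕ, 1 ≤ e → SS (hom M χ) e = -(A.map fun α => α ^ e).sum) ∧ ∀ α ∈ A, ‖α‖ < 2 := by
  classical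
  have := finite_quot M hM
  have hfin : Finite (MulChar (AdjoinRoot M) ℂ) := inferInstance
  let _ : Fintype (MulChar (AdjoinRoot M) ℂ) := Fintype.ofFinite _
  have hex : ∀ ψ : MulChar (AdjoinRoot M) ℂ, ψ ≠ 1 → ∃ A : Multiset ℂ,
      (∀ e : ℕ, 1 ≤ e → SS (hom M ψ) e = -(A.map fun α => α ^ e).sum) ∧
      ∀ u : ℂ, ∑ n ∈ Finset.range M.natDegree, cc (hom M ψ) n * u ^ n = (A.map fun α => 1 - α * u).prod :=
    fun ψ hψ => power_sums (cc (hom M ψ)) (SS (hom M ψ)) M.natDegree (cc_at_zero _)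
      (fun n hn => cc_zero M hM ψ hψ n hn) (newton (hom M ψ))
  choose! A hA1 hA2 using hex
  have hA3 : ∀ ψ, ψ ≠ 1 → ∀ α ∈ A ψ, ‖α‖ ≤ 2 := by
    intro ψ hψ
    refine abs_le_two (A ψ) fun e he => ?_
    have h1 := SS_le (hom M ψ) (norm_hom_le M hM ψ) e he
    rwa [hA1 ψ hψ e he, norm_neg] at h1
  have hsum := sum_k_le M hM A hA1 hA3
  refine ⟨A χ, hA1 χ hχ, ?_⟩
  by_cases hk : k2 (A χ) = 0
  · intro α hα
    refine lt_of_le_of_ne (hA3 χ hχ α hα) fun h2 => ?_
    rw [k2, Multiset.card_eq_zero] at hk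
    have h3 : α ∈ (A χ).filter fun α => ‖α‖ = 2 := Multiset.mem_filter.2 ⟨hα, h2⟩
    have h4 : α ∈ (0 : Multiset ℂ) := by
      rw [← hk]
      convert h3
    exact absurd h4 (Multiset.notMem_zero α)
  · exfalso
    set ψ : MulChar (AdjoinRoot M) ℂ := χ.ringHomComp (starRingEnd ℂ) with hψdef
    have hψ : ψ ≠ 1 := conj_ne_one M χ hχ
    have hconj : ∀ e : ℕ, 1 ≤ e → ((A ψ).map fun α => α ^ e).sum = starRingEnd ℂ ((A χ).map fun α => α ^ e).sum := by
      intro e he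
      have h1 := SS_conj M χ e
      rw [← hψdef, hA1 ψ hψ e he, hA1 χ hχ e he, map_neg] at h1
      exact neg_injective h1
    have hk2 : k2 (A χ) = k2 (A ψ) := k2_conj (A χ) (A ψ) (hA3 χ hχ) (hA3 ψ hψ) hconj
    have hmemχ : χ ∈ Finset.univ.erase (1 : MulChar (AdjoinRoot M) ℂ) :=
      Finset.mem_erase.2 ⟨hχ, Finset.mem_univ _⟩
    have hmemψ : ψ ∈ Finset.univ.erase (1 : MulChar (AdjoinRoot M) ℂ) :=
      Finset.mem_erase.2 ⟨hψ, Finset.mem_univ _⟩
    have hpos : 1 ≤ k2 (A χ) := Nat.one_le_iff_ne_zero.2 hk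
    have hle : k2 (A χ) ≤ 1 := by
      refine le_trans ?_ hsum
      have := Finset.single_le_sum (f := fun χ => k2 (A χ)) (fun _ _ => Nat.zero_le _) hmemχ
      convert this
    have hk1 : k2 (A χ) = 1 := le_antisymm hle hpos
    have heq : ψ = χ := by
      by_contra hne
      have hsub : ({χ, ψ} : Finset (MulChar (AdjoinRoot M) ℂ)) ⊆ Finset.univ.erase (1 : MulChar (AdjoinRoot M) ℂ) := by
        intro x hx
        rw [Finset.mem_insert, Finset.mem_singleton] at hx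
        rcases hx with rfl | rfl
        · exact hmemχ
        · exact hmemψ
      have h1 := Finset.sum_le_sum_of_subset (f := fun χ => k2 (A χ)) hsub
      rw [Finset.sum_pair (Ne.symm hne)] at h1
      have h2 : ∑ χ ∈ Finset.univ.erase (1 : MulChar (AdjoinRoot M) ℂ), k2 (A χ) ≤ 1 := by
        convert hsum
      omega
    have hreal := real_vals M hM χ (hψdef ▸ heq)
    have him : ∀ e : ℕ, 1 ≤ e → ((A χ).map fun α => α ^ e).sum.im = 0 := by
      intro e he
      have h1 := hconj e he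
      rw [heq] at h1
      exact Complex.conj_eq_iff_im.1 h1.symm
    have hz := real_zero (A χ) (hA3 χ hχ) hk1 him
    have key : ∀ ε : ℂ, (ε = 1 ∨ ε = -1) → 2 * ε ∈ A χ → False := by
      intro ε hε hmem
      have h1 := no_real (hom M χ) hreal (hom_X_ne M hX χ) M.natDegree
        (fun n hn => cc_zero M hM χ hχ n hn) ε hε
      apply h1
      rw [hA2 χ hχ (ε / 2)]
      apply Multiset.prod_eq_zero
      rw [Multiset.mem_map]
      refine ⟨2 * ε, hmem, ?_⟩
      rcases hε with rfl | rfl <;> norm_num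
    rcases hz with hz | hz
    · exact key 1 (Or.inl rfl) (by rw [mul_one]; exact hz)
    · exact key (-1) (Or.inr rfl) (by rw [mul_neg_one]; exact hz)

end Pool.Agent.Lib.NGE
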