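import Pool.Agent.Lib.MP_f4a4e4_co.NGX.Infinity
import Pool.Agent.Lib.NG5.Main
import Pool.Agent.Lib.NGE.EvA

/-!
# NGE / Main: the largest bicliques of NG(q, s), even q and every s; every large q for s = 5 (helper74)
-/

set_option autoImplicit false

namespace Pool.Agent.Lib.NGE

open SimpleGraph Pool.Agent.Lib.MP_f4a4e4_co.NGX

theorem mono {V : Type} {G : SimpleGraph V} {a b c : ℕ} (hbc : b ≤ c)
    (h : completeBipartiteGraph (Fin a) (Fin c) ⊑ G) : completeBipartiteGraph (Fin a) (Fin b) ⊑ G := by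
  refine IsContained.trans ?_ h
  refine ⟨⟨⟨Sum.map id (Fin.castLE hbc), ?_⟩, ?_⟩⟩
  · intro x y hxy
    rcases x with x | x <;> rcases y with y | y <;> simp_all [completeBipartiteGraph]
  · exact Function.Injective.sumMap Function.injective_id (Fin.castLE_injective hbc)

theorem greatest_even {F K : Type} [Field F] [Field K] [Finite K] [Algebra F K] {m : ℕ}
    (hm : Module.finrank F K = m + 1)
    (h : ∀ a b : ℕ, a + b = 2 ^ (m + 1) → completeBipartiteGraph (Fin a) (Fin (b + 1)) ⊑ NormGraph F K) :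
    IsGreatest {r : ℕ | completeBipartiteGraph (Fin r) (Fin r) ⊑ NormGraph F K} (2 ^ m) := by
  refine ⟨mono (Nat.le_succ _) (h (2 ^ m) (2 ^ m) (by rw [pow_succ]; omega)), ?_⟩
  intro r hr
  have h1 := min_le hm hr
  rwa [min_self] at h1

theorem greatest_odd {F K : Type} [Field F] [Field K] [Finite K] [Algebra F K]
    (hm : Module.finrank F K = 4) (h7 : completeBipartiteGraph (Fin 7) (Fin 7) ⊑ NormGraph F K) :
    ∃ r : ℕ, (r = 7 ∨ r = 8) ∧
      IsGreatest {r : ℕ | completeBipartiteGraph (Fin r) (Fin r) ⊑ NormGraph F K} r := by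
  have hup : ∀ r : ℕ, completeBipartiteGraph (Fin r) (Fin r) ⊑ NormGraph F K → r ≤ 8 := by
    intro r hr
    have h1 := min_le (m := 3) hm hr
    rw [min_self] at h1
    exact h1.trans (by norm_num)
  by_cases h8 : completeBipartiteGraph (Fin 8) (Fin 8) ⊑ NormGraph F K
  · exact ⟨8, Or.inr rfl, h8, fun r hr => hup r hr⟩
  · refine ⟨7, Or.inl rfl, h7, fun r hr => ?_⟩
    have h1 := hup r hr
    by_contra h2
    have h3 : r = 8 := by omega
    subst h3
    exact h8 hr

end Pool.Agent.Lib.NGE
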