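import Pool.Agent.Lib.NGE.Defs

/-!
# NGE / MonL: the finite sets `Mon n`, `AdjoinRoot M`

PROOF IN WORDS. `mem_Mon`: over `F_2` write `f = X^n + ∑_{i<n} coeff i X^i` (`Polynomial.as_sum_range`, `Monic`). `card_Mon`: the map `c ↦ ..` is injective (coefficients), `2^n` functions. `AdjoinRoot M` for monic `M`: `AdjoinRoot.powerBasis'` (`Monic`) has dimension `natDegree M` over the finite field `ZMod 2`.
-/

set_option autoImplicit false

namespace Pool.Agent.Lib.NGE

open Polynomial

theorem mem_Mon (n : ℕ) (f : (ZMod 2)[X]) : f ∈ Mon n ↔ f.Monic ∧ f.natDegree = n := by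
  classical
  unfold Mon
  rw [Finset.mem_image]
  constructor
  · rintro ⟨c, -, rfl⟩
    have h := degree_sum_fin_lt c
    refine ⟨monic_X_pow_add h, ?_⟩
    rw [natDegree_add_eq_left_of_degree_lt (by rwa [degree_X_pow]), natDegree_X_pow]
  · rintro ⟨hf, rfl⟩
    refine ⟨fun i => f.coeff i, Finset.mem_univ _, ?_⟩
    conv_rhs => rw [hf.as_sum]
    rw [Finset.sum_range]

theorem card_Mon (n : ℕ) : (Mon n).card = 2 ^ n := by
  classical
  unfold Mon
  rw [Finset.card_image_of_injective]
  · simp [ZMod.card]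
  · intro c d h
    have h1 := add_left_cancel h
    funext j
    have h2 := congrArg (fun p => coeff p (j : ℕ)) h1
    simpa [finsetSum_coeff, coeff_C_mul, coeff_X_pow, Fin.val_inj] using h2

theorem finite_quot (M : (ZMod 2)[X]) (hM : M.Monic) : Finite (AdjoinRoot M) := by
  have : Module.Finite (ZMod 2) (AdjoinRoot M) := hM.finite_adjoinRoot
  exact Module.finite_of_finite (ZMod 2)

end Pool.Agent.Lib.NGE
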