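import Pool.Agent.Lib.NGE.NwA
import Pool.Agent.Lib.NGE.NwB

/-!
# NGE / Newt: Newton identities

PROOF IN WORDS. `n cc h n = ∑_{f ∈ Mon n} n h f`, insert `deg_eq` and exchange the sums: `∑_{j ∈ [1,n]} ∑_{r ∣ j} ∑_{P ∈ Irr r} r ∑_{f ∈ Mon n, P^(j/r) ∣ f} h f`; the inner sum is `h(P)^(j/r) cc h (n - j)` by `sum_mult` (`P^(j/r) ∈ Mon j`: monic of degree `r (j/r) = j`).
-/

set_option autoImplicit false

namespace Pool.Agent.Lib.NGE

open Polynomial

theorem newton (h : (ZMod 2)[X] →* ℂ) (n : ℕ) :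
    (n : ℂ) * cc h n = ∑ j ∈ Finset.Icc 1 n, SS h j * cc h (n - j) := by
  classical
  have h1 : ∀ f ∈ Mon n, (n : ℂ) * h f = ∑ j ∈ Finset.Icc 1 n, ∑ r ∈ j.divisors, ∑ P ∈ Irr r,
      (if P ^ (j / r) ∣ f then (r : ℂ) * h f else 0) := by
    intro f hf
    have h2 : (n : ℂ) = ∑ j ∈ Finset.Icc 1 n, ∑ r ∈ j.divisors, ∑ P ∈ (Irr r).filter (fun P => P ^ (j / r) ∣ f), (r : ℂ) := by
      exact_mod_cast congrArg (Nat.cast : ℕ → ℂ) (deg_eq n f hf)
    calc (n : ℂ) * h f = (∑ j ∈ Finset.Icc 1 n, ∑ r ∈ j.divisors, ∑ P ∈ (Irr r).filter (fun P => P ^ (j / r) ∣ f), (r : ℂ)) * h f := by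
          rw [← h2]
      _ = _ := by
          rw [Finset.sum_mul]
          refine Finset.sum_congr rfl fun j _ => ?_
          rw [Finset.sum_mul]
          refine Finset.sum_congr rfl fun r _ => ?_
          rw [Finset.sum_mul, Finset.sum_filter]
  calc (n : ℂ) * cc h n = ∑ f ∈ Mon n, (n : ℂ) * h f := by rw [cc, Finset.mul_sum]
    _ = ∑ f ∈ Mon n, ∑ j ∈ Finset.Icc 1 n, ∑ r ∈ j.divisors, ∑ P ∈ Irr r,
      (if P ^ (j / r) ∣ f then (r : ℂ) * h f else 0) := Finset.sum_congr rfl h1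
    _ = ∑ j ∈ Finset.Icc 1 n, ∑ r ∈ j.divisors, ∑ P ∈ Irr r, ∑ f ∈ Mon n,
      (if P ^ (j / r) ∣ f then (r : ℂ) * h f else 0) := by
          rw [Finset.sum_comm]
          refine Finset.sum_congr rfl fun j _ => ?_
          rw [Finset.sum_comm]
          refine Finset.sum_congr rfl fun r _ => ?_
          rw [Finset.sum_comm]
    _ = ∑ j ∈ Finset.Icc 1 n, SS h j * cc h (n - j) := by
          refine Finset.sum_congr rfl fun j hj => ?_
          rw [SS, Finset.sum_mul]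
          refine Finset.sum_congr rfl fun r hr => ?_
          rw [Finset.sum_mul]
          refine Finset.sum_congr rfl fun P hP => ?_
          have hj' := Finset.mem_Icc.1 hj
          have hrj := Nat.dvd_of_mem_divisors hr
          have hPM : P ^ (j / r) ∈ Mon j := by
            have h3 : P ∈ Mon r := (Finset.mem_filter.1 hP).1
            rw [mem_Mon] at h3 ⊢
            refine ⟨h3.1.pow _, ?_⟩
            rw [h3.1.natDegree_pow, h3.2, Nat.div_mul_cancel hrj]
          rw [← Finset.sum_filter, ← Finset.mul_sum, sum_mult h n j hj'.2 _ hPM, map_pow]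
          ring

end Pool.Agent.Lib.NGE
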