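import Pool.Agent.Lib.NGE.Orth

/-!
# NGE / OrS: orthogonality, summed

PROOF IN WORDS. Insert the definition of `SS`, exchange the sums, `h P ^ k = h (P ^ k)` (`map_pow`), and use `orth` for `f = P^(e/r)`.
-/

set_option autoImplicit false

namespace Pool.Agent.Lib.NGE

open Polynomial

open Classical in
theorem orth_SS (M : (ZMod 2)[X]) (hM : M.Monic) [Fintype (MulChar (AdjoinRoot M) ℂ)] (a : (ZMod 2)[X])
    (ha : IsCoprime a M) (e : ℕ) :
    ∑ χ : MulChar (AdjoinRoot M) ℂ, (hom M χ a)⁻¹ * SS (hom M χ) e =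
      ((Nat.card (AdjoinRoot M)ˣ * ∑ r ∈ e.divisors, r * ((Irr r).filter fun P => M ∣ P ^ (e / r) - a).card : ℕ) : ℂ) := by
  unfold SS
  simp_rw [Finset.mul_sum]
  rw [Finset.sum_comm]
  push_cast
  refine Finset.sum_congr rfl fun r _ => ?_
  rw [Finset.sum_comm]
  rw [Finset.card_filter]
  push_cast
  rw [Finset.mul_sum, Finset.mul_sum]
  refine Finset.sum_congr rfl fun P _ => ?_
  have h := orth M hM a (P ^ (e / r)) ha
  calc ∑ χ : MulChar (AdjoinRoot M) ℂ, (hom M χ a)⁻¹ * ((r : ℂ) * hom M χ P ^ (e / r))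
      = ∑ χ : MulChar (AdjoinRoot M) ℂ, (r : ℂ) * ((hom M χ a)⁻¹ * hom M χ (P ^ (e / r))) := by
        refine Finset.sum_congr rfl fun χ _ => ?_
        rw [map_pow]; ring
    _ = (r : ℂ) * (if M ∣ P ^ (e / r) - a then ((Nat.card (AdjoinRoot M)ˣ : ℕ) : ℂ) else 0) := by
        rw [← Finset.mul_sum, h]
    _ = _ := by
        split_ifs <;> ring

end Pool.Agent.Lib.NGE
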