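import Pool.Agent.Lib.NGE.MonL

/-!
# NGE / Orth: orthogonality of the characters modulo `M`

PROOF IN WORDS. `AdjoinRoot M` is a finite commutative ring (`finite_quot`), `MulChar (AdjoinRoot M) ℂ` is finite. `mk M a` is a unit (`IsCoprime a M`). If `mk M f` is not a unit all terms are `0` and `mk M f ≠ mk M a`. If it is: `(χ a)⁻¹ χ f = χ (f/a)`; if `f/a = 1` every term is `1` and the number of characters is the number of units
(`MulChar.card_eq_card_units_of_hasEnoughRootsOfUnity` in `Mathlib.NumberTheory.MulChar.Duality`); otherwise there is `ψ` with `ψ (f/a) ≠ 1` (`MulChar.exists_apply_ne_one_of_hasEnoughRootsOfUnity`), and the sum is multiplied by it when `χ` is replaced by `ψ χ`. (Compare `DirichletCharacter.sum_char_inv_mul_char_eq`.)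
-/

set_option autoImplicit false

namespace Pool.Agent.Lib.NGE

open Polynomial

open Classical in
private theorem sum_chi (M : (ZMod 2)[X]) (hM : M.Monic) [Fintype (MulChar (AdjoinRoot M) ℂ)]
    (b : AdjoinRoot M) :
    ∑ χ : MulChar (AdjoinRoot M) ℂ, χ b =
      if b = 1 then ((Nat.card (AdjoinRoot M)ˣ : ℕ) : ℂ) else 0 := by
  have := finite_quot M hM
  have : NeZero (Monoid.exponent (AdjoinRoot M)ˣ) := ⟨Monoid.exponent_ne_zero_of_finite⟩
  split_ifs with h
  · subst h
    simp only [map_one, Finset.sum_const, Finset.card_univ, nsmul_eq_mul, mul_one]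
    rw [← Nat.card_eq_fintype_card,
      MulChar.card_eq_card_units_of_hasEnoughRootsOfUnity (AdjoinRoot M) ℂ]
  · obtain ⟨ψ, hψ⟩ := MulChar.exists_apply_ne_one_of_hasEnoughRootsOfUnity (AdjoinRoot M) ℂ h
    refine eq_zero_of_mul_eq_self_left hψ ?_
    simp only [Finset.mul_sum, ← MulChar.mul_apply]
    exact Fintype.sum_bijective _ (Group.mulLeft_bijective ψ) _ _ fun χ' ↦ rfl

open Classical in
theorem orth (M : (ZMod 2)[X]) (hM : M.Monic) [Fintype (MulChar (AdjoinRoot M) ℂ)] (a f : (ZMod 2)[X])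
    (ha : IsCoprime a M) :
    ∑ χ : MulChar (AdjoinRoot M) ℂ, (hom M χ a)⁻¹ * hom M χ f =
      if M ∣ f - a then ((Nat.card (AdjoinRoot M)ˣ : ℕ) : ℂ) else 0 := by
  have hu : IsUnit (AdjoinRoot.mk M a) := by
    obtain ⟨p, q, h⟩ := ha
    refine IsUnit.of_mul_eq_one (AdjoinRoot.mk M p) ?_
    have h2 := congrArg (AdjoinRoot.mk M) h
    rw [map_add, map_mul, map_mul, AdjoinRoot.mk_self, mul_zero, add_zero, map_one] at h2
    rw [mul_comm]; exact h2
  obtain ⟨u, hu⟩ := hu
  have h1 : ∀ χ : MulChar (AdjoinRoot M) ℂ,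
      (hom M χ a)⁻¹ * hom M χ f = χ ((↑u⁻¹ : AdjoinRoot M) * AdjoinRoot.mk M f) := by
    intro χ
    have ha' : hom M χ a = χ (u : AdjoinRoot M) := by rw [hu]; rfl
    have hf' : hom M χ f = χ (AdjoinRoot.mk M f) := rfl
    have hinv : χ (↑u⁻¹ : AdjoinRoot M) * χ (u : AdjoinRoot M) = 1 := by
      rw [← map_mul, Units.inv_mul, map_one]
    rw [ha', hf', map_mul, eq_inv_of_mul_eq_one_left hinv]
  simp only [h1]
  rw [sum_chi M hM]
  have h2 : ((↑u⁻¹ : AdjoinRoot M) * AdjoinRoot.mk M f = 1) ↔ M ∣ f - a := by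
    rw [Units.inv_mul_eq_one, hu, eq_comm, AdjoinRoot.mk_eq_mk]
  simp only [h2]

end Pool.Agent.Lib.NGE
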