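import Mathlib

/-!
# NGE / PwA: a polynomial with constant term 1 as a product

PROOF IN WORDS. `ℂ` is algebraically closed: `L = C lc * ∏ (X - r)` over `A0 = L.roots` (`IsAlgClosed.splits`, `Polynomial.Splits.eq_prod_roots` or `Polynomial.C_leadingCoeff_mul_prod_multiset_X_sub_C`), all `r ≠ 0` as `L.coeff 0 = 1`. `X - r = -r (1 - r⁻¹ X)`; the product of the constants is `1` (compare the constant terms). `A = A0.map (·⁻¹)`. (Or strong induction on the degree: a root `r` of `L`, `L = (1 - r⁻¹ X) L'`.)
-/

set_option autoImplicit false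

namespace Pool.Agent.Lib.NGE

open Polynomial

theorem exists_prod (L : ℂ[X]) (h0 : L.coeff 0 = 1) : ∃ A : Multiset ℂ, L = (A.map fun α => 1 - C α * X).prod := by
  have hs := (IsAlgClosed.splits L).eq_prod_roots
  have hr : ∀ r ∈ L.roots, r ≠ 0 := by
    rintro r hr rfl
    have h1 := (Polynomial.mem_roots'.1 hr).2
    rw [IsRoot.def, ← coeff_zero_eq_eval_zero, h0] at h1
    exact one_ne_zero h1
  have key : (L.roots.map (fun r => X - C r)).prod =
      C ((L.roots.map (fun r => -r)).prod) * (L.roots.map (fun r => 1 - C r⁻¹ * X)).prod := by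
    rw [map_multiset_prod, Multiset.map_map, ← Multiset.prod_map_mul]
    refine congrArg Multiset.prod (Multiset.map_congr rfl fun r hr' => ?_)
    have h2 : (C r : ℂ[X]) * C r⁻¹ = 1 := by
      rw [← C_mul, mul_inv_cancel₀ (hr r hr'), C_1]
    simp only [Function.comp_apply, C_neg]
    linear_combination (-X) * h2
  have hP : ((L.roots.map (fun r => 1 - C r⁻¹ * X)).prod).coeff 0 = 1 := by
    rw [coeff_zero_eq_eval_zero, eval_multiset_prod, Multiset.map_map]
    refine Multiset.prod_eq_one fun x hx => ?_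
    obtain ⟨r, -, rfl⟩ := Multiset.mem_map.1 hx
    simp
  refine ⟨L.roots.map (fun r => r⁻¹), ?_⟩
  rw [Multiset.map_map]
  rw [key, ← mul_assoc, ← C_mul] at hs
  have hc : L.leadingCoeff * (L.roots.map (fun r => -r)).prod = 1 := by
    have h3 := congrArg (fun p : ℂ[X] => p.coeff 0) hs
    simp only [coeff_C_mul, h0] at h3
    rw [hP, mul_one] at h3
    exact h3.symm
  rw [hc, C_1, one_mul] at hs
  exact hs

end Pool.Agent.Lib.NGE
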