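import Mathlib

/-!
# NGE / Tor: returning powers on the torus

PROOF IN WORDS. The unit circle product is compact: the sequence `e ↦ (z k ^ e)_k` in the closed ball of `κ → ℂ` has a convergent, so Cauchy, subsequence (`tendsto_subseq_of_bounded` or `IsCompact.tendsto_subseq`): there are `e' < e''` with `e'' - e' ≥ E + 1` and `‖z k ^ e'' - z k ^ e'‖ ≤ δ` for all `k`; `‖z k ^ e'‖ = 1`, so `e = e'' - e'` works.
-/

set_option autoImplicit false

namespace Pool.Agent.Lib.NGE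

theorem torus {κ : Type} [Finite κ] (z : κ → ℂ) (hz : ∀ k, ‖z k‖ = 1) (δ : ℝ) (hδ : 0 < δ) (E : ℕ) :
    ∃ e : ℕ, E ≤ e ∧ 1 ≤ e ∧ ∀ k, ‖z k ^ e - 1‖ ≤ δ := by
  classical
  have : Fintype κ := Fintype.ofFinite κ
  have hb : Bornology.IsBounded (Metric.closedBall (0 : κ → ℂ) 1) := Metric.isBounded_closedBall
  have hmem : ∀ e : ℕ, (fun k => z k ^ e : κ → ℂ) ∈ Metric.closedBall (0 : κ → ℂ) 1 := by
    intro e
    rw [mem_closedBall_zero_iff]
    refine (pi_norm_le_iff_of_nonneg (by norm_num)).2 fun k => ?_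
    rw [norm_pow, hz k, one_pow]
  obtain ⟨a, _, φ, hφ, hlim⟩ := tendsto_subseq_of_bounded hb hmem
  have hC : CauchySeq ((fun e : ℕ => (fun k => z k ^ e : κ → ℂ)) ∘ φ) := hlim.cauchySeq
  obtain ⟨N, hN⟩ := Metric.cauchySeq_iff.1 hC δ hδ
  have hlt : φ N + (E + 1) ≤ φ (N + (E + 1)) := by
    have : ∀ j : ℕ, φ N + j ≤ φ (N + j) := by
      intro j
      induction j with
      | zero => simp
      | succ j ih =>
        have := hφ (show N + j < N + (j + 1) by omega)
        omega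
    exact this (E + 1)
  refine ⟨φ (N + (E + 1)) - φ N, by omega, by omega, fun k => ?_⟩
  have h1 := hN (N + (E + 1)) (by omega) N le_rfl
  rw [dist_eq_norm] at h1
  have h2 : ‖z k ^ φ (N + (E + 1)) - z k ^ φ N‖ ≤ δ := by
    refine le_trans ?_ h1.le
    exact norm_le_pi_norm ((((fun e : ℕ => (fun k => z k ^ e : κ → ℂ)) ∘ φ) (N + (E + 1))) -
      (((fun e : ℕ => (fun k => z k ^ e : κ → ℂ)) ∘ φ) N)) k
  have h3 : z k ^ φ (N + (E + 1)) - z k ^ φ N = z k ^ φ N * (z k ^ (φ (N + (E + 1)) - φ N) - 1) := by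
    rw [mul_sub, ← pow_add, mul_one]
    congr 2
    omega
  rw [h3, norm_mul, norm_pow, hz k, one_pow, one_mul] at h2
  exact h2

end Pool.Agent.Lib.NGE
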